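import Mathlib

/-!
# GZT (TorA): a quotient of `U → ℤ` modulo torsion is free
-/

set_option autoImplicit false

namespace Pool.Agent.GZT

open Submodule

theorem exists_deg {U : Type} [Finite U] (N : AddSubgroup (U → ℤ)) :
    ∃ (m : ℕ) (deg : (U → ℤ) →+ (Fin m → ℤ)) (s : (Fin m → ℤ) →+ (U → ℤ)),
      (∀ a, deg (s a) = a) ∧ N ≤ deg.ker ∧
      ∀ α ∈ deg.ker, ∃ n : ℕ, 0 < n ∧ n • α ∈ N := by
  classical
  let N' : Submodule ℤ (U → ℤ) := AddSubgroup.toIntSubmodule N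
  let T : Submodule ℤ ((U → ℤ) ⧸ N') := torsion ℤ ((U → ℤ) ⧸ N')
  haveI : Module.Finite ℤ ((U → ℤ) ⧸ N') := inferInstance
  haveI : Module.Finite ℤ (((U → ℤ) ⧸ N') ⧸ T) := inferInstance
  haveI : Module.IsTorsionFree ℤ (((U → ℤ) ⧸ N') ⧸ T) := inferInstance
  haveI : Module.Free ℤ (((U → ℤ) ⧸ N') ⧸ T) := inferInstance
  let b := Module.finBasis ℤ (((U → ℤ) ⧸ N') ⧸ T)
  let f : (U → ℤ) →ₗ[ℤ] (((U → ℤ) ⧸ N') ⧸ T) := T.mkQ.comp N'.mkQ
  have hf : Function.Surjective f := by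
    have h1 := N'.mkQ_surjective
    have h2 := T.mkQ_surjective
    exact h2.comp h1
  let g : (U → ℤ) →ₗ[ℤ] (Fin (Module.finrank ℤ (((U → ℤ) ⧸ N') ⧸ T)) → ℤ) :=
    b.equivFun.toLinearMap.comp f
  have hg : Function.Surjective g := b.equivFun.surjective.comp hf
  obtain ⟨s, hs⟩ := Module.projective_lifting_property g LinearMap.id hg
  refine ⟨_, g.toAddMonoidHom, s.toAddMonoidHom, ?_, ?_, ?_⟩
  · intro a
    have := LinearMap.congr_fun hs a
    simpa using this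
  · intro x hx
    rw [AddMonoidHom.mem_ker]
    show g x = 0
    have h1 : N'.mkQ x = 0 := by
      rw [Submodule.mkQ_apply, Submodule.Quotient.mk_eq_zero]
      exact hx
    show b.equivFun (T.mkQ (N'.mkQ x)) = 0
    rw [h1]
    simp
  · intro α hα
    rw [AddMonoidHom.mem_ker] at hα
    have h0 : b.equivFun (T.mkQ (N'.mkQ α)) = 0 := hα
    have h1 : T.mkQ (N'.mkQ α) = 0 := by
      simpa using h0
    rw [Submodule.mkQ_apply, Submodule.Quotient.mk_eq_zero] at h1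
    obtain ⟨a, ha⟩ := h1
    have ha0 : (a : ℤ) ≠ 0 := nonZeroDivisors.coe_ne_zero a
    have h2 : (a : ℤ) • (N'.mkQ α) = 0 := ha
    rw [← map_smul, Submodule.mkQ_apply, Submodule.Quotient.mk_eq_zero] at h2
    have h3 : (a : ℤ) • α ∈ N := h2
    refine ⟨(a : ℤ).natAbs, Int.natAbs_pos.mpr ha0, ?_⟩
    rcases Int.natAbs_eq (a : ℤ) with h | h
    · rw [h] at h3
      rwa [natCast_zsmul] at h3
    · rw [h, neg_smul] at h3
      have h4 := N.neg_mem h3
      rwa [neg_neg, natCast_zsmul] at h4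

end Pool.Agent.GZT
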