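import Pool.Agent.GZero.Functor

/-!
# `G_0` is generated by the classes of the quotients by prime ideals

`closure_primes`: for a Noetherian ring `B` the classes of the modules `B ⧸ p`, `p` prime, generate
`G_0(B)`.  `fg_of_isArtinianRing`: for an Artinian ring the group `G_0` is finitely generated.
-/

set_option autoImplicit false

universe u

namespace Pool.Agent.GZT

open Pool.Agent.GZero

theorem closure_primes (B : Type u) [CommRing B] [IsNoetherianRing B] :
    AddSubgroup.closure (Set.range fun p : PrimeSpectrum B => G0.cls B (B ⧸ p.asIdeal)) = ⊤ := by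
  have key : ∀ (N : Type u) [AddCommGroup N] [Module B N] [hN : Module.Finite B N],
      G0.cls B N ∈
        AddSubgroup.closure (Set.range fun p : PrimeSpectrum B => G0.cls B (B ⧸ p.asIdeal)) := by
    intro N _ _ hN
    refine IsNoetherianRing.induction_on_isQuotientEquivQuotientPrime B hN
      (motive := fun N _ _ _ => G0.cls B N ∈
        AddSubgroup.closure (Set.range fun p : PrimeSpectrum B => G0.cls B (B ⧸ p.asIdeal)))
      ?_ ?_ ?_
    · intro N _ _ _ _
      rw [G0.cls_subsingleton]
      exact AddSubgroup.zero_mem _
    · intro N _ _ _ p e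
      rw [G0.cls_congr e]
      exact AddSubgroup.subset_closure ⟨p, rfl⟩
    · intro N₁ _ _ _ N₂ _ _ _ N₃ _ _ _ f g hf hg hfg h1 h3
      rw [G0.cls_exact f g hf hg (LinearMap.exact_iff.1 hfg).symm]
      exact AddSubgroup.add_mem _ h1 h3
  rw [eq_top_iff]
  rintro x -
  induction x using QuotientAddGroup.induction_on with
  | H x =>
    induction x using FreeAbelianGroup.induction_on with
    | zero => exact AddSubgroup.zero_mem _
    | of M => exact key M.carrier
    | neg M h => exact AddSubgroup.neg_mem _ h
    | add x y hx hy => exact AddSubgroup.add_mem _ hx hy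

theorem fg_of_isArtinianRing (B : Type u) [CommRing B] [IsArtinianRing B] :
    AddGroup.FG (G0 B) := by
  rw [AddGroup.fg_iff]
  exact ⟨_, closure_primes B, Set.finite_range _⟩

theorem fg_of_subsingleton (B : Type u) [CommRing B] [Subsingleton B] : AddGroup.FG (G0 B) :=
  fg_of_isArtinianRing B

end Pool.Agent.GZT
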