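import Pool.Agent.GZero.Functor

/-!
# `G_0` of a localisation is a quotient
-/

universe u v

set_option linter.style.haveILetI false

namespace Pool.Agent.GZT

open Pool.Agent.GZero
open scoped TensorProduct

/-- Every finitely generated module over `B[1/s]` is the localisation of a finitely generated
`B`-module. -/
theorem bc_away_surjective (B : Type u) [CommRing B] (s : B) :
    Function.Surjective (G0.bc B (Localization.Away s)) := by
  have key : ∀ M : FMod (Localization.Away s),
      G0.mk M ∈ (G0.bc B (Localization.Away s)).range := by
    intro M
    letI : Module B M.carrier := Module.compHom M.carrier (algebraMap B (Localization.Away s))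
    haveI : IsScalarTower B (Localization.Away s) M.carrier := ⟨fun r a m => by
      rw [Algebra.smul_def, mul_smul]
      rfl⟩
    obtain ⟨t, ht⟩ := M.fin.fg_top
    let N : Submodule B M.carrier := Submodule.span B (t : Set M.carrier)
    haveI : Module.Finite B N := Module.Finite.iff_fg.2 ⟨t, rfl⟩
    have hl : IsLocalizedModule (Submonoid.powers s) N.subtype := by
      refine ⟨?_, ?_, ?_⟩
      · intro x
        have h1 : IsUnit (algebraMap B (Localization.Away s) x) :=
          IsLocalization.map_units _ x
        have h2 := h1.map (algebraMap (Localization.Away s)
          (Module.End (Localization.Away s) M.carrier))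
        rw [Module.End.isUnit_iff] at h2 ⊢
        exact h2
      · intro y
        have hy : y ∈ Submodule.span (Localization.Away s) (t : Set M.carrier) := by
          rw [ht]; trivial
        induction hy using Submodule.span_induction with
        | mem x hx => exact ⟨(⟨x, Submodule.subset_span hx⟩, 1), by simp⟩
        | zero => exact ⟨(0, 1), by simp⟩
        | add x y _ _ hx hy =>
          obtain ⟨⟨n, a⟩, h1⟩ := hx
          obtain ⟨⟨n', a'⟩, h2⟩ := hy
          refine ⟨(a' • n + a • n', a * a'), ?_⟩
          change (a * a') • (x + y) = N.subtype (a' • n + a • n')
          change a • x = N.subtype n at h1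
          change a' • y = N.subtype n' at h2
          have e1 : N.subtype (a' • n + a • n') = a' • N.subtype n + a • N.subtype n' := rfl
          rw [e1, ← h1, ← h2, smul_add, mul_smul, mul_smul, smul_comm a a' x]
        | smul c x _ hx =>
          obtain ⟨⟨n, a⟩, h1⟩ := hx
          change a • x = N.subtype n at h1
          obtain ⟨⟨b, d⟩, hc⟩ := IsLocalization.surj (Submonoid.powers s) c
          refine ⟨(b • n, d * a), ?_⟩
          change (d * a) • (c • x) = N.subtype (b • n)
          have e1 : N.subtype (b • n) = b • N.subtype n := rfl
          rw [e1, ← h1, mul_smul]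
          have h3 : ∀ (r : B) (m : M.carrier), r • m = algebraMap B (Localization.Away s) r • m :=
            fun r m => rfl
          have h4 : ∀ (r : Submonoid.powers s) (m : M.carrier),
            r • m = algebraMap B (Localization.Away s) (r : B) • m := fun r m => rfl
          change c * algebraMap B _ (d : B) = algebraMap B _ b at hc
          rw [h4, h4, h4, h3, ← hc, smul_smul, smul_smul, smul_smul]
          congr 1
          ring
      · intro x y h
        exact ⟨1, by rw [Subtype.ext h]⟩
    have hb := IsLocalizedModule.isBaseChange (Submonoid.powers s) (Localization.Away s) N.subtype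
    refine ⟨G0.cls B N, ?_⟩
    change G0.bc B (Localization.Away s) (G0.mk ⟨N⟩) = _
    rw [G0.bc_mk]
    exact G0.cls_congr hb.equiv
  intro x
  have h1 : (QuotientAddGroup.mk' (G0.bc B (Localization.Away s)).range) = 0 := by
    refine G0.hom_ext fun M => ?_
    exact (QuotientAddGroup.eq_zero_iff _).2 (key M)
  have h2 := DFunLike.congr_fun h1 x
  exact (QuotientAddGroup.eq_zero_iff _).1 h2

/-- Finite generation passes to localisations. -/
theorem fg_away (B : Type u) [CommRing B] (s : B) (h : AddGroup.FG (G0 B)) :
    AddGroup.FG (G0 (Localization.Away s)) :=
  AddGroup.fg_of_surjective (bc_away_surjective B s)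

end Pool.Agent.GZT
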