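import Pool.Agent.GZT.Sys

/-!
# Base change of a presentation over the integers
-/

universe u v w

set_option linter.unusedSectionVars false

namespace Pool.Agent.GZT

open TensorProduct

variable {V L : Type} {S : L → Finset (Finset V)}

/-- The algebra `k ⊗ A` has the same presentation. -/
theorem IsPres.baseChange (k : Type u) [CommRing k] {A : Type v} [CommRing A] {a : V → A}
    (h : IsPres ℤ S a) : IsPres k S (fun v => (1 : k) ⊗ₜ[ℤ] a v) := by
  let inc : A →ₐ[ℤ] k ⊗[ℤ] A := Algebra.TensorProduct.includeRight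
  have hinc : ∀ x, inc x = (1 : k) ⊗ₜ[ℤ] x := fun x => rfl
  refine ⟨fun l => ?_, ?_, ?_⟩
  · have h1 := congrArg inc (h.rel l)
    rw [map_sum, map_zero] at h1
    rw [← h1]
    refine Finset.sum_congr rfl fun s _ => ?_
    rw [map_prod]
    exact Finset.prod_congr rfl fun v _ => (hinc _).symm
  · rw [eq_top_iff]
    rintro x -
    have h2 : ∀ y : A, inc y ∈ Algebra.adjoin k (Set.range fun v => (1 : k) ⊗ₜ[ℤ] a v) := by
      intro y
      have hy : y ∈ Algebra.adjoin ℤ (Set.range a) := by
        rw [h.gen]
        exact Algebra.mem_top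
      induction hy using Algebra.adjoin_induction with
      | mem y hy =>
        obtain ⟨v, rfl⟩ := hy
        exact Algebra.subset_adjoin ⟨v, rfl⟩
      | algebraMap n =>
        rw [AlgHom.commutes]
        have h3 : algebraMap ℤ (k ⊗[ℤ] A) n = algebraMap k (k ⊗[ℤ] A) (n : k) := by
          rw [map_intCast]
          exact eq_intCast (algebraMap ℤ (k ⊗[ℤ] A)) n
        rw [h3]
        exact Subalgebra.algebraMap_mem _ _
      | add x y _ _ hx hy =>
        rw [map_add]
        exact Subalgebra.add_mem _ hx hy
      | mul x y _ _ hx hy =>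
        rw [map_mul]
        exact Subalgebra.mul_mem _ hx hy
    induction x using TensorProduct.induction_on with
    | zero => exact Subalgebra.zero_mem _
    | tmul c y =>
      have h4 : c ⊗ₜ[ℤ] y = c • inc y := by
        rw [hinc, TensorProduct.smul_tmul', smul_eq_mul, mul_one]
      rw [h4]
      exact Subalgebra.smul_mem _ (h2 y) c
    | add x y hx hy => exact Subalgebra.add_mem _ hx hy
  · obtain ⟨g, hg⟩ := h.exists_hom (Sys.x k S) (Sys.rel S)
    haveI : IsScalarTower ℤ k (Sys k S) :=
      IsScalarTower.of_algebraMap_eq' (RingHom.ext_int _ _)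
    refine ⟨Algebra.TensorProduct.lift (Algebra.ofId k (Sys k S)) g (fun _ _ => .all _ _),
      fun v => ?_⟩
    rw [Algebra.TensorProduct.lift_tmul, map_one, one_mul, hg]

/-- The base change of the algebra. -/
theorem IsPres.baseChange_equiv (k : Type u) [CommRing k] {A : Type v} [CommRing A] {a : V → A}
    (h : IsPres ℤ S a) : Nonempty (Sys k S ≃ₐ[k] k ⊗[ℤ] A) := by
  obtain ⟨e, -⟩ := (h.baseChange k).equiv
  exact ⟨e⟩

end Pool.Agent.GZT
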