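import Pool.Agent.GZero.Functor

/-!
# Definitions for the threshold theorem (tensors with coefficients `0, 1`)

* `bil k o x` is the bilinear form `∑ y_(y(t)) z_(z(t))` over the terms `t` with `x(t) = x`;
  `VQ k o` is the algebra defined by all these forms;
* `Sat`, `Univ`: systems of equations `m + m' = 0` (`(m, m') ∈ S`) and `m = 0` (`m ∈ S0`) between
  monomials, in which the variables in `U` are units and the variables in `Z` are zero, and the
  universal algebra of such a system.
-/

universe u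

namespace Pool.Agent.GZT

open Pool.Agent.GZero MvPolynomial

/-- The bilinear form attached to the index `x` in the list `o` of triples. -/
noncomputable def bil (k : Type u) [CommRing k] {T X Y Z : Type} [Fintype T] [DecidableEq X]
    (o : T → X × Y × Z) (x : X) : MvPolynomial (Y ⊕ Z) k :=
  ∑ t : T, if (o t).1 = x then
    MvPolynomial.X (Sum.inl (o t).2.1) * MvPolynomial.X (Sum.inr (o t).2.2) else 0

/-- The algebra `k[y, z]/(bilinear forms)`. -/
abbrev VQ (k : Type u) [CommRing k] {T X Y Z : Type} [Fintype T] [DecidableEq X]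
    (o : T → X × Y × Z) : Type u :=
  MvPolynomial (Y ⊕ Z) k ⧸ Ideal.span (Set.range (bil k o))

/-- The family `φ` satisfies the system `(S, S0, U, Z)`. -/
structure Sat {V : Type} [Fintype V] (S : Set ((V → ℕ) × (V → ℕ))) (S0 : Set (V → ℕ))
    (U Z : Set V) {C : Type u} [CommRing C] (φ : V → C) : Prop where
  two : ∀ p ∈ S, ∏ v, φ v ^ p.1 v + ∏ v, φ v ^ p.2 v = 0
  one : ∀ m ∈ S0, ∏ v, φ v ^ m v = 0
  unit : ∀ v ∈ U, IsUnit (φ v)
  zero : ∀ v ∈ Z, φ v = 0

/-- The `k`-algebra `C` with the family `φ` is universal for the system `(S, S0, U, Z)`. -/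
structure Univ (k : Type u) [CommRing k] {V : Type} [Fintype V] (S : Set ((V → ℕ) × (V → ℕ)))
    (S0 : Set (V → ℕ)) (U Z : Set V) (C : Type u) [CommRing C] [Algebra k C] (φ : V → C) :
    Prop where
  sat : Sat S S0 U Z φ
  lift : ∀ (D : Type u) [CommRing D] [Algebra k D] (ψ : V → D), Sat S S0 U Z ψ →
    ∃ g : C →ₐ[k] D, ∀ v, g (φ v) = ψ v
  ext : ∀ (D : Type u) [CommRing D] [Algebra k D] (g h : C →ₐ[k] D),
    (∀ v, g (φ v) = h (φ v)) → g = h

end Pool.Agent.GZT
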