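import Pool.Agent.GZero.Functor

/-!
# `G_0` of a ring which is a finitely generated abelian group is finitely generated (helper85)
-/

universe u

namespace Pool.Agent.GZT

open Pool.Agent.GZero
open scoped nonZeroDivisors

namespace FFZ

theorem closure_primes (B : Type u) [CommRing B] [IsNoetherianRing B] :
    AddSubgroup.closure (Set.range fun p : PrimeSpectrum B => G0.cls B (B ⧸ p.asIdeal)) = ⊤ := by
  set Γ := AddSubgroup.closure
    (Set.range fun p : PrimeSpectrum B => G0.cls B (B ⧸ p.asIdeal)) with hΓ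
  have h : ∀ (N : Type u) [AddCommGroup N] [Module B N] (_ : Module.Finite B N),
      G0.cls B N ∈ Γ := by
    intro N _ _ hN
    induction hN using IsNoetherianRing.induction_on_isQuotientEquivQuotientPrime B with
    | subsingleton N =>
      rw [G0.cls_subsingleton]
      exact zero_mem _
    | quotient N p f =>
      rw [G0.cls_congr f]
      exact AddSubgroup.subset_closure ⟨p, rfl⟩
    | exact N₁ N₂ N₃ f g hf hg hfg h₁ h₃ =>
      rw [G0.cls_exact f g hf hg (LinearMap.exact_iff.1 hfg).symm]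
      exact add_mem h₁ h₃
  have key : ∀ M : FMod B, G0.mk M ∈ Γ := fun M => h M.carrier M.fin
  rw [eq_top_iff]
  intro x _
  have h1 : QuotientAddGroup.mk' Γ = 0 := G0.hom_ext fun M => by
    rw [AddMonoidHom.zero_apply]
    exact (QuotientAddGroup.eq_zero_iff _).2 (key M)
  exact (QuotientAddGroup.eq_zero_iff x).1 (DFunLike.congr_fun h1 x)

theorem finite_quot (B : Type u) [CommRing B] [Module.Finite ℤ B] (I : Ideal B) (m : ℤ)
    (hm : m ≠ 0) (h : (m : B) ∈ I) : Finite (B ⧸ I) := by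
  have h1 : Module.Finite ℤ (B ⧸ I) :=
    Module.Finite.of_surjective (Ideal.Quotient.mkₐ ℤ I).toLinearMap Ideal.Quotient.mk_surjective
  refine Module.finite_of_fg_torsion (B ⧸ I) ?_
  intro x
  obtain ⟨b, rfl⟩ := Ideal.Quotient.mk_surjective x
  refine ⟨⟨m, mem_nonZeroDivisors_of_ne_zero hm⟩, ?_⟩
  change m • Ideal.Quotient.mk I b = 0
  rw [← map_zsmul, Ideal.Quotient.eq_zero_iff_mem, zsmul_eq_mul]
  exact I.mul_mem_right _ h

theorem finite_primes (B : Type u) [CommRing B] [Module.Finite ℤ B] (m : ℤ) (hm : m ≠ 0) :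
    {p : PrimeSpectrum B | (m : B) ∈ p.asIdeal}.Finite := by
  have h1 : Finite (B ⧸ Ideal.span {(m : B)}) :=
    finite_quot B _ m hm (Ideal.mem_span_singleton_self _)
  have h2 : Finite (Ideal (B ⧸ Ideal.span {(m : B)})) :=
    Finite.of_injective (fun I => (I : Set (B ⧸ Ideal.span {(m : B)}))) SetLike.coe_injective
  have h3 : Finite (PrimeSpectrum (B ⧸ Ideal.span {(m : B)})) :=
    Finite.of_injective PrimeSpectrum.asIdeal fun _ _ h => PrimeSpectrum.ext h
  refine (Set.finite_range (PrimeSpectrum.comap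
    (Ideal.Quotient.mk (Ideal.span {(m : B)})))).subset ?_
  intro p hp
  rw [range_comap_of_surjective _ _ Ideal.Quotient.mk_surjective,
    PrimeSpectrum.mem_zeroLocus, Ideal.mk_ker]
  exact (Ideal.span_singleton_le_iff_mem _).2 hp

theorem maximal (B : Type u) [CommRing B] [Module.Finite ℤ B] (p : Ideal B) [p.IsPrime] (m : ℤ)
    (hm : m ≠ 0) (h : (m : B) ∈ p) : p.IsMaximal := by
  have h1 : Finite (B ⧸ p) := finite_quot B p m hm h
  exact Ideal.Quotient.maximal_of_isField p (Finite.isField_of_domain (B ⧸ p))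

theorem step (B O : Type u) [CommRing B] [IsNoetherianRing B] [CommRing O]
    [IsDedekindDomain O] [Algebra B O] [Module.Finite B O] [Finite (ClassGroup O)] [CharZero O]
    (n : ℤ) (hnO : ∀ x : O, ∃ b : B, algebraMap B O b = n * x) :
    ∃ S : Set (G0 B), S.Finite ∧ ∀ p : PrimeSpectrum B,
      RingHom.ker (algebraMap B O) ≤ p.asIdeal → (∃ m : ℤ, m ≠ 0 ∧ (m : B) ∈ p.asIdeal) →
      (n : B) ∉ p.asIdeal → p.asIdeal.IsMaximal →
      G0.cls B (B ⧸ p.asIdeal) ∈ AddSubgroup.closure S := by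
  have hnoeth : IsNoetherian B O := isNoetherian_of_isNoetherianRing_of_finite B O
  have hfin : ∀ I : Ideal O, Module.Finite B I := fun I =>
    Module.Finite.of_injective (I.subtype.restrictScalars B) Subtype.val_injective
  let c : Ideal O → G0 B := fun I => @G0.cls B _ I _ _ (hfin I)
  have hcl : ∀ I J : (Ideal O)⁰, ClassGroup.mk0 I = ClassGroup.mk0 J →
      c (I : Ideal O) = c (J : Ideal O) := by
    intro I J h
    obtain ⟨x, y, hx, hy, hxy⟩ := ClassGroup.mk0_eq_mk0_iff.1 h
    let φ : O → (K : Ideal O) → (K →ₗ[B] O) := fun x K =>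
      (LinearMap.mulLeft B x).comp (K.subtype.restrictScalars B)
    have hφ : ∀ x : O, x ≠ 0 → ∀ K : Ideal O, Function.Injective (φ x K) := by
      intro x hx K a b hab
      have h1 : x * (a : O) = x * (b : O) := hab
      exact Subtype.ext (mul_left_cancel₀ hx h1)
    have hr : LinearMap.range (φ x I) = LinearMap.range (φ y J) := by
      ext z
      have e1 : ∀ (x : O) (K : Ideal O), z ∈ LinearMap.range (φ x K) ↔ z ∈ Ideal.span {x} * K := by
        intro x K
        rw [Ideal.mem_span_singleton_mul, LinearMap.mem_range]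
        constructor
        · rintro ⟨a, rfl⟩
          exact ⟨a, a.2, rfl⟩
        · rintro ⟨a, ha, rfl⟩
          exact ⟨⟨a, ha⟩, rfl⟩
      rw [e1, e1, hxy]
    have := hfin I
    have := hfin J
    exact G0.cls_congr ((LinearEquiv.ofInjective _ (hφ x hx I)).trans
      ((LinearEquiv.ofEq _ _ hr).trans (LinearEquiv.ofInjective _ (hφ y hy J)).symm))
  refine ⟨insert (G0.cls B O) (Set.range fun C : ClassGroup O =>
    c ((ClassGroup.mk0_surjective C).choose : Ideal O)), (Set.finite_range _).insert _, ?_⟩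
  intro p hker hm hnp hmax
  obtain ⟨N, -, hNp, hNc⟩ := Ideal.exists_ideal_over_prime_of_isIntegral p.asIdeal
    (⊥ : Ideal O) (by rw [← RingHom.ker_eq_comap_bot]; exact hker)
  have hmem : ∀ b : B, algebraMap B O b ∈ N ↔ b ∈ p.asIdeal := fun b => by
    rw [← hNc, Ideal.mem_comap]
  have hN0 : N ≠ ⊥ := by
    obtain ⟨m, hm0, hmp⟩ := hm
    intro h
    have h1 := (hmem _).2 hmp
    rw [h, Ideal.mem_bot, map_intCast] at h1
    exact hm0 (by exact_mod_cast h1)
  have := hfin N
  have hfq : Module.Finite B (O ⧸ N) :=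
    Module.Finite.of_surjective (Ideal.Quotient.mkₐ B N).toLinearMap Ideal.Quotient.mk_surjective
  have hseq : G0.cls B O = G0.cls B N + G0.cls B (O ⧸ N) := by
    refine G0.cls_exact (R := B) (N.subtype.restrictScalars B)
      (Ideal.Quotient.mkₐ B N).toLinearMap Subtype.val_injective Ideal.Quotient.mk_surjective ?_
    ext x
    rw [LinearMap.mem_range, LinearMap.mem_ker]
    constructor
    · rintro ⟨a, rfl⟩
      exact Ideal.Quotient.eq_zero_iff_mem.2 a.2
    · intro h
      exact ⟨⟨x, Ideal.Quotient.eq_zero_iff_mem.1 h⟩, rfl⟩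
  have hcongr : G0.cls B (B ⧸ p.asIdeal) = G0.cls B (O ⧸ N) := by
    let ψ : (B ⧸ p.asIdeal) →ₐ[B] (O ⧸ N) := Ideal.Quotient.liftₐ p.asIdeal
      (Algebra.ofId B (O ⧸ N)) (fun a ha => Ideal.Quotient.eq_zero_iff_mem.2 ((hmem a).2 ha))
    have hψ : ∀ b : B, ψ (Ideal.Quotient.mk p.asIdeal b) =
      Ideal.Quotient.mk N (algebraMap B O b) := fun b => rfl
    refine G0.cls_congr (LinearEquiv.ofBijective ψ.toLinearMap ⟨?_, ?_⟩)
    · rw [← LinearMap.ker_eq_bot, eq_bot_iff]
      intro x hx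
      obtain ⟨b, rfl⟩ := Ideal.Quotient.mk_surjective x
      rw [LinearMap.mem_ker] at hx
      have h1 : Ideal.Quotient.mk N (algebraMap B O b) = 0 := hx
      rw [Ideal.Quotient.eq_zero_iff_mem, hmem] at h1
      rw [Submodule.mem_bot]
      exact Ideal.Quotient.eq_zero_iff_mem.2 h1
    · intro x
      obtain ⟨o, rfl⟩ := Ideal.Quotient.mk_surjective x
      obtain ⟨b, hb⟩ := hnO o
      obtain ⟨y, i, hi, hy⟩ := hmax.exists_inv hnp
      refine ⟨Ideal.Quotient.mk p.asIdeal (y * b), ?_⟩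
      rw [AlgHom.toLinearMap_apply, hψ, Ideal.Quotient.mk_eq_mk_iff_sub_mem, map_mul, hb]
      have h1 : algebraMap B O y * n + algebraMap B O i = 1 := by
        rw [← map_intCast (algebraMap B O) n, ← map_mul, ← map_add, hy, map_one]
      have h2 : algebraMap B O y * (n * o) - o = -(algebraMap B O i * o) := by
        linear_combination o * h1
      rw [h2]
      exact N.neg_mem (N.mul_mem_right _ ((hmem i).2 hi))
  have h1 : G0.cls B (O ⧸ N) = G0.cls B O - c N := by
    rw [hseq]
    exact (add_sub_cancel_left _ _).symm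
  rw [hcongr, h1]
  refine sub_mem (AddSubgroup.subset_closure (Set.mem_insert _ _))
    (AddSubgroup.subset_closure (Set.mem_insert_of_mem _
      ⟨ClassGroup.mk0 ⟨N, mem_nonZeroDivisors_of_ne_zero hN0⟩, ?_⟩))
  exact hcl _ ⟨N, mem_nonZeroDivisors_of_ne_zero hN0⟩
    (ClassGroup.mk0_surjective (ClassGroup.mk0 ⟨N, mem_nonZeroDivisors_of_ne_zero hN0⟩)).choose_spec

theorem frac (D K : Type u) [CommRing D] [IsDomain D] [CharZero D] [Algebra.IsIntegral ℤ D]
    [Field K] [Algebra D K] [IsFractionRing D K] (x : K) :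
    ∃ (m : ℤ) (d : D), m ≠ 0 ∧ algebraMap D K d = (m : K) * x := by
  obtain ⟨a, b, hb, rfl⟩ := IsFractionRing.div_surjective (A := D) x
  have hb0 : b ≠ 0 := nonZeroDivisors.ne_zero hb
  have h1 := Ideal.comap_ne_bot_of_integral_mem (R := ℤ) (I := Ideal.span {b}) hb0
    (Ideal.mem_span_singleton_self b) (Algebra.IsIntegral.isIntegral b)
  obtain ⟨m, hm, hm0⟩ := Submodule.exists_mem_ne_zero_of_ne_bot h1
  rw [Ideal.mem_comap] at hm
  obtain ⟨c, hc⟩ := Ideal.mem_span_singleton'.1 hm
  refine ⟨m, c * a, hm0, ?_⟩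
  have hb1 : algebraMap D K b ≠ 0 := by
    intro h
    exact hb0 (IsFractionRing.injective D K (by rw [h, map_zero]))
  have h2 : (m : K) = algebraMap D K c * algebraMap D K b := by
    rw [← map_mul, hc, eq_intCast, map_intCast]
  rw [h2, map_mul]
  field_simp

theorem fin_of_prime' (B : Type u) [CommRing B] [IsNoetherianRing B] [Module.Finite ℤ B]
    (q : Ideal B) [q.IsPrime] (hq : ∀ m : ℤ, (m : B) ∈ q → m = 0) (K : Type u) [Field K]
    [Algebra (B ⧸ q) K] [IsFractionRing (B ⧸ q) K] :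
    ∃ S : Set (G0 B), S.Finite ∧ ∀ p : PrimeSpectrum B, q ≤ p.asIdeal →
      (∃ m : ℤ, m ≠ 0 ∧ (m : B) ∈ p.asIdeal) →
      G0.cls B (B ⧸ p.asIdeal) ∈ AddSubgroup.closure S := by
  have hDf : Module.Finite ℤ (B ⧸ q) :=
    Module.Finite.of_surjective (Ideal.Quotient.mkₐ ℤ q).toLinearMap Ideal.Quotient.mk_surjective
  have hD0 : ∀ m : ℤ, (m : B ⧸ q) = 0 → m = 0 := by
    intro m hm
    rw [← map_intCast (Ideal.Quotient.mk q), Ideal.Quotient.eq_zero_iff_mem] at hm
    exact hq m hm
  have hDc : CharZero (B ⧸ q) := by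
    refine charZero_of_inj_zero fun m hm => ?_
    have := hD0 m (by exact_mod_cast hm)
    exact_mod_cast this
  have hKc : CharZero K :=
    charZero_of_injective_algebraMap (IsFractionRing.injective (B ⧸ q) K)
  have hKf : FiniteDimensional ℚ K := by
    obtain ⟨s, hs⟩ := hDf.fg_top
    classical
    refine ⟨⟨s.image (algebraMap (B ⧸ q) K), ?_⟩⟩
    rw [eq_top_iff]
    intro x _
    obtain ⟨m, d, hm, hd⟩ := frac (B ⧸ q) K x
    have hm' : (m : K) ≠ 0 := by exact_mod_cast hm
    have h1 : algebraMap (B ⧸ q) K d ∈ Submodule.span ℚ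
        ((s.image (algebraMap (B ⧸ q) K) : Finset _) :
          Set K) := by
      have hd' : d ∈ Submodule.span ℤ (s : Set (B ⧸ q)) := by rw [hs]; trivial
      refine Submodule.span_induction (p := fun d _ => algebraMap (B ⧸ q) K d ∈
        Submodule.span ℚ ((s.image (algebraMap (B ⧸ q) K) : Finset _) :
          Set K)) ?_ ?_ ?_ ?_ hd'
      · intro y hy
        exact Submodule.subset_span (Finset.mem_coe.2 (Finset.mem_image_of_mem _ hy))
      · rw [map_zero]
        exact zero_mem _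
      · intro y z _ _ hy hz
        rw [map_add]
        exact add_mem hy hz
      · intro a y _ hy
        rw [map_zsmul]
        exact zsmul_mem hy a
    have h2 : x = ((m : ℚ)⁻¹) • algebraMap (B ⧸ q) K d := by
      rw [hd, Rat.smul_def]
      push_cast
      field_simp
    rw [h2]
    exact Submodule.smul_mem _ _ h1
  have hK : NumberField K := ⟨⟩
  let f : B →+* NumberField.RingOfIntegers K :=
    (IsIntegralClosure.lift ℤ (NumberField.RingOfIntegers K)
      K : (B ⧸ q) →ₐ[ℤ] _).toRingHom.comp (Ideal.Quotient.mk q)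
  have hf : ∀ b : B, algebraMap (NumberField.RingOfIntegers K)
      K (f b) =
      algebraMap (B ⧸ q) K (Ideal.Quotient.mk q b) := fun b =>
    IsIntegralClosure.algebraMap_lift ℤ (NumberField.RingOfIntegers K) K (Ideal.Quotient.mk q b)
  let _ : Algebra B (NumberField.RingOfIntegers K) := f.toAlgebra
  have hfinB : Module.Finite B (NumberField.RingOfIntegers K) :=
    Module.Finite.of_restrictScalars_finite ℤ B _
  obtain ⟨n, hn0, hn⟩ : ∃ n : ℤ, n ≠ 0 ∧
      ∀ x : NumberField.RingOfIntegers K, ∃ b : B, f b = n * x := by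
    choose m d hm hd using frac (B ⧸ q) K
    obtain ⟨s, hs⟩ := (inferInstance : Module.Finite ℤ
      (NumberField.RingOfIntegers K)).fg_top
    refine ⟨∏ x ∈ s, m (algebraMap _ K x),
      Finset.prod_ne_zero_iff.2 fun x _ => hm _, fun x => ?_⟩
    have hx : x ∈ Submodule.span ℤ
        (s : Set (NumberField.RingOfIntegers K)) := by rw [hs]; trivial
    refine Submodule.span_induction (p := fun x _ => ∃ b : B, f b =
      ((∏ x ∈ s, m (algebraMap _ K x) : ℤ) :
        NumberField.RingOfIntegers K) * x) ?_ ?_ ?_ ?_ hx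
    · intro y hy
      classical
      obtain ⟨b, hb⟩ := Ideal.Quotient.mk_surjective (d (algebraMap _ K y))
      refine ⟨((∏ x ∈ s.erase y, m (algebraMap _ K x) : ℤ) : B) * b, ?_⟩
      apply NumberField.RingOfIntegers.coe_injective
      rw [map_mul, map_mul, map_intCast, map_intCast, hf, hb, hd, ← Finset.mul_prod_erase _ _ hy,
        map_mul, map_intCast]
      push_cast
      ring
    · exact ⟨0, by rw [map_zero, mul_zero]⟩
    · rintro y z _ _ ⟨b, hb⟩ ⟨b', hb'⟩
      exact ⟨b + b', by rw [map_add, hb, hb', mul_add]⟩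
    · rintro a y _ ⟨b, hb⟩
      refine ⟨a * b, ?_⟩
      rw [map_mul, map_intCast, hb, zsmul_eq_mul]
      ring
  obtain ⟨S, hS, hSp⟩ := step B (NumberField.RingOfIntegers K) n hn
  refine ⟨S ∪ (fun p : PrimeSpectrum B => G0.cls B (B ⧸ p.asIdeal)) ''
    {p : PrimeSpectrum B | (n : B) ∈ p.asIdeal},
    hS.union ((finite_primes B n hn0).image _), fun p hqp hm => ?_⟩
  by_cases hnp : (n : B) ∈ p.asIdeal
  · exact AddSubgroup.subset_closure (Or.inr ⟨p, hnp, rfl⟩)
  · refine AddSubgroup.closure_mono Set.subset_union_left (hSp p ?_ hm hnp ?_)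
    · intro b hb
      have h1 : f b = 0 := hb
      have h2 := hf b
      rw [h1, map_zero] at h2
      have h3 := IsFractionRing.injective (B ⧸ q) K
        (h2.symm.trans (map_zero _).symm)
      exact hqp (Ideal.Quotient.eq_zero_iff_mem.1 h3)
    · obtain ⟨m, hm0, hmp⟩ := hm
      exact maximal B p.asIdeal m hm0 hmp

theorem fin_of_prime (B : Type u) [CommRing B] [IsNoetherianRing B] [Module.Finite ℤ B]
    (q : Ideal B) [q.IsPrime] (hq : ∀ m : ℤ, (m : B) ∈ q → m = 0) :
    ∃ S : Set (G0 B), S.Finite ∧ ∀ p : PrimeSpectrum B, q ≤ p.asIdeal →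
      (∃ m : ℤ, m ≠ 0 ∧ (m : B) ∈ p.asIdeal) →
      G0.cls B (B ⧸ p.asIdeal) ∈ AddSubgroup.closure S :=
  fin_of_prime' B q hq (FractionRing (B ⧸ q))

end FFZ

open FFZ in
theorem fg_of_finite_int (B : Type u) [CommRing B] [Module.Finite ℤ B] :
    AddGroup.FG (G0 B) := by
  have hZ : IsNoetherian ℤ B := isNoetherian_of_isNoetherianRing_of_finite ℤ B
  have hB : IsNoetherianRing B := isNoetherian_of_tower ℤ hZ
  have hint : Algebra.IsIntegral ℤ B := inferInstance
  have hmin : (minimalPrimes B).Finite := minimalPrimes.finite_of_isNoetherianRing B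
  have hex : ∀ q : Ideal B, ∃ S : Set (G0 B), S.Finite ∧
      (q.IsPrime → (∀ m : ℤ, (m : B) ∈ q → m = 0) →
      ∀ p : PrimeSpectrum B, q ≤ p.asIdeal → (∃ m : ℤ, m ≠ 0 ∧ (m : B) ∈ p.asIdeal) →
      G0.cls B (B ⧸ p.asIdeal) ∈ AddSubgroup.closure S) := by
    intro q
    by_cases h1 : q.IsPrime
    · by_cases h2 : ∀ m : ℤ, (m : B) ∈ q → m = 0
      · obtain ⟨S, hS, h⟩ := fin_of_prime B q h2
        exact ⟨S, hS, fun _ _ => h⟩
      · exact ⟨∅, Set.finite_empty, fun _ h => absurd h h2⟩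
    · exact ⟨∅, Set.finite_empty, fun h => absurd h h1⟩
  choose S hS hSp using hex
  rw [AddGroup.fg_iff]
  refine ⟨(⋃ q ∈ minimalPrimes B, S q) ∪ (fun p : PrimeSpectrum B => G0.cls B (B ⧸ p.asIdeal)) ''
    {p : PrimeSpectrum B | p.asIdeal ∈ minimalPrimes B}, ?_, ?_⟩
  · rw [eq_top_iff, ← closure_primes B, AddSubgroup.closure_le]
    rintro _ ⟨p, rfl⟩
    by_cases hp : p.asIdeal ∈ minimalPrimes B
    · exact AddSubgroup.subset_closure (Or.inr ⟨p, hp, rfl⟩)
    · obtain ⟨q, hq, hqp⟩ := Ideal.exists_minimalPrimes_le (bot_le : (⊥ : Ideal B) ≤ p.asIdeal)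
      have hqpr : q.IsPrime := hq.1.1
      have hne : q ≠ p.asIdeal := fun h => hp (h ▸ hq)
      have hq0 : ∀ m : ℤ, (m : B) ∈ q → m = 0 := by
        intro m hm
        by_contra hm0
        have h1 := maximal B q m hm0 hm
        exact hne (h1.eq_of_le p.isPrime.ne_top hqp)
      have hp0 : ∃ m : ℤ, m ≠ 0 ∧ (m : B) ∈ p.asIdeal := by
        obtain ⟨b, hbp, hbq⟩ := SetLike.exists_of_lt (lt_of_le_of_ne hqp hne)
        have h1 : Ideal.Quotient.mk q b ≠ 0 := fun h =>
          hbq (Ideal.Quotient.eq_zero_iff_mem.1 h)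
        have hDi : Algebra.IsIntegral ℤ (B ⧸ q) := by
          have hDf : Module.Finite ℤ (B ⧸ q) := Module.Finite.of_surjective
            (Ideal.Quotient.mkₐ ℤ q).toLinearMap Ideal.Quotient.mk_surjective
          infer_instance
        have h2 := Ideal.comap_ne_bot_of_integral_mem (R := ℤ)
          (I := p.asIdeal.map (Ideal.Quotient.mk q)) h1 (Ideal.mem_map_of_mem _ hbp)
          (Algebra.IsIntegral.isIntegral _)
        obtain ⟨m, hm, hm0⟩ := Submodule.exists_mem_ne_zero_of_ne_bot h2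
        refine ⟨m, hm0, ?_⟩
        rw [Ideal.mem_comap, eq_intCast, ← map_intCast (Ideal.Quotient.mk q),
          Ideal.mem_quotient_iff_mem hqp] at hm
        exact hm
      refine AddSubgroup.closure_mono ?_ (hSp q hqpr hq0 p hqp hp0)
      exact (Set.subset_biUnion_of_mem hq).trans Set.subset_union_left
  · refine (hmin.biUnion fun q _ => hS q).union (Set.Finite.image _ ?_)
    exact Set.Finite.of_finite_image (f := PrimeSpectrum.asIdeal)
      (hmin.subset (by rintro _ ⟨p, hp, rfl⟩; exact hp))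
      (fun _ _ _ _ h => PrimeSpectrum.ext h)

end Pool.Agent.GZT
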