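import Pool.Agent.GZT.Iff

/-!
# Models over `ℤ` of algebras over rings of fractions of integers (helper30)

`Frac k`: every element of `k` is a quotient of two integers, `k = ℤ`, `ℤ/n`, `ℚ`, `ℤ_(p)`, `ℤ[1/n]`. Every
algebra of finite type over such a ring is `k ⊗ A₀` for a finitely generated ring `A₀`.
-/

universe u v w

namespace Pool.Agent.GZT

open Pool.Agent.GZero TensorProduct

/-- Every element of `k` is a quotient of two integers. -/
def Frac (k : Type u) [CommRing k] : Prop :=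
  ∀ x : k, ∃ s a : ℤ, IsUnit (s : k) ∧ (s : k) * x = (a : k)

theorem frac_of_surjective (k : Type u) [CommRing k]
    (h : Function.Surjective (Int.castRingHom k)) : Frac k := by
  intro x
  obtain ⟨a, rfl⟩ := h x
  exact ⟨1, a, by simp, by simp⟩

theorem frac_rat : Frac ℚ := by
  intro x
  refine ⟨x.den, x.num, ?_, ?_⟩
  · rw [isUnit_iff_ne_zero]
    exact_mod_cast x.den_ne_zero
  · push_cast
    exact Rat.den_mul_eq_num x

section

variable {k : Type u} [CommRing k] {A : Type v} [CommRing A]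

theorem frac_tensor (hk : Frac k) (A₀ : Subalgebra ℤ A) (x : k ⊗[ℤ] A₀) :
    ∃ (s : ℤ) (a : A₀), IsUnit (s : k) ∧ (s : k) • x = (1 : k) ⊗ₜ[ℤ] a := by
  induction x using TensorProduct.induction_on with
  | zero => exact ⟨1, 0, by simp, by simp⟩
  | tmul x a =>
    obtain ⟨s, c, hs, h⟩ := hk x
    refine ⟨s, c • a, hs, ?_⟩
    rw [TensorProduct.smul_tmul', smul_eq_mul, h, ← TensorProduct.smul_tmul]
    congr 1
    simp
  | add x y hx hy =>
    obtain ⟨s, a, hs, h⟩ := hx
    obtain ⟨t, b, ht, h'⟩ := hy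
    refine ⟨s * t, t • a + s • b, ?_, ?_⟩
    · push_cast
      exact hs.mul ht
    · have e1 : ((s * t : ℤ) : k) • x = (t : k) • ((s : k) • x) := by
        rw [smul_smul]
        push_cast
        rw [mul_comm]
      have e2 : ((s * t : ℤ) : k) • y = (s : k) • ((t : k) • y) := by
        rw [smul_smul]
        push_cast
        rfl
      have e3 : ∀ (c : ℤ) (d : A₀), (c : k) • ((1 : k) ⊗ₜ[ℤ] d) = (1 : k) ⊗ₜ[ℤ] (c • d) := by
        intro c d
        rw [TensorProduct.smul_tmul', smul_eq_mul, mul_one, ← TensorProduct.smul_tmul]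
        congr 1
        simp
      rw [smul_add, e1, e2, h, h', e3, e3, TensorProduct.tmul_add]

theorem frac_model [Algebra k A] (hk : Frac k) [Algebra.FiniteType k A] :
    ∃ A₀ : Subalgebra ℤ A, Algebra.FiniteType ℤ A₀ ∧ Nonempty (k ⊗[ℤ] A₀ ≃ₐ[k] A) := by
  obtain ⟨s, hs⟩ := (inferInstance : Algebra.FiniteType k A).out
  let A₀ : Subalgebra ℤ A := Algebra.adjoin ℤ (s : Set A)
  let f : k ⊗[ℤ] A₀ →ₐ[k] A := Algebra.TensorProduct.productLeftAlgHom (Algebra.ofId k A) A₀.val
  have h1 : ∀ (x : k) (a : A₀), f (x ⊗ₜ a) = algebraMap k A x * (a : A) := by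
    intro x a
    rfl
  have hinj : Function.Injective f := by
    rw [injective_iff_map_eq_zero]
    intro x hx
    obtain ⟨c, a, hc, h⟩ := frac_tensor hk A₀ x
    have h2 : f ((1 : k) ⊗ₜ[ℤ] a) = 0 := by rw [← h, map_smul, hx, smul_zero]
    rw [h1, map_one, one_mul] at h2
    have h3 : a = 0 := Subtype.ext h2
    rw [h3, TensorProduct.tmul_zero] at h
    obtain ⟨u, hu⟩ := hc
    rw [← hu] at h
    have h4 : ((u⁻¹ : kˣ) : k) • ((u : k) • x) = x := by
      rw [smul_smul, Units.inv_mul, one_smul]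
    rw [← h4, h, smul_zero]
  have hsurj : Function.Surjective f := by
    rw [← AlgHom.range_eq_top, ← top_le_iff, ← hs, Algebra.adjoin_le_iff]
    intro b hb
    refine ⟨(1 : k) ⊗ₜ[ℤ] (⟨b, Algebra.subset_adjoin hb⟩ : A₀), ?_⟩
    change f ((1 : k) ⊗ₜ[ℤ] (⟨b, Algebra.subset_adjoin hb⟩ : A₀)) = b
    rw [h1, map_one, one_mul]
  exact ⟨A₀, (Subalgebra.fg_iff_finiteType A₀).1 (Subalgebra.fg_adjoin_finset s),
    ⟨AlgEquiv.ofBijective f ⟨hinj, hsurj⟩⟩⟩

end

section

theorem Frac.isNoetherianRing {k : Type u} [CommRing k] (hk : Frac k) : IsNoetherianRing k := by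
  rw [isNoetherianRing_iff_ideal_fg]
  intro I
  obtain ⟨n, hn⟩ := (IsPrincipalIdealRing.principal (I.comap (Int.castRingHom k)))
  refine ⟨{(n : k)}, le_antisymm ?_ ?_⟩
  · rw [Finset.coe_singleton, Ideal.span_singleton_le_iff_mem]
    have : n ∈ I.comap (Int.castRingHom k) := by
      rw [hn]
      exact Submodule.mem_span_singleton_self n
    exact this
  · intro x hx
    obtain ⟨s, a, hs, h⟩ := hk x
    have h1 : a ∈ I.comap (Int.castRingHom k) := by
      rw [Ideal.mem_comap]
      change (a : k) ∈ I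
      rw [← h]
      exact I.mul_mem_left _ hx
    rw [hn, Submodule.mem_span_singleton] at h1
    obtain ⟨c, rfl⟩ := h1
    obtain ⟨u, hu⟩ := hs
    rw [Finset.coe_singleton, Ideal.mem_span_singleton']
    refine ⟨(u⁻¹ : kˣ) * (c : k), ?_⟩
    rw [mul_assoc]
    have h2 : (c : k) * (n : k) = (u : k) * x := by
      rw [hu, h, smul_eq_mul]
      push_cast
      rfl
    rw [h2, ← mul_assoc, Units.inv_mul, one_mul]

variable (h : Part1.{u}) (k : Type u) [CommRing k] (hk : Frac k)

include h hk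

theorem exists_surjection' (A : Type u) [CommRing A] [Algebra k A] [Algebra.FiniteType k A] :
    ∃ (n : ℕ) (S : Finset (Finset (Fin n))) (I : Finset (Fin n)), Sparse S I ∧
      ∃ f : G0 (Hyp k S) →+ G0 A, Function.Surjective f := by
  have hn : IsNoetherianRing k := hk.isNoetherianRing
  obtain ⟨A₀, h2, ⟨t'⟩⟩ := frac_model (A := A) hk
  obtain ⟨n, S, I, hS, h3⟩ := h A₀
  obtain ⟨-, e, -⟩ := h3 k
  let t : k ⊗[ℤ] A₀ ≃+* A := t'.toRingEquiv
  refine ⟨n, S, I, hS, ((G0.congrRing t).toAddMonoidHom.comp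
    (AddMonoidHom.fst (G0 (k ⊗[ℤ] A₀)) (G0 k))).comp e.toAddMonoidHom, ?_⟩
  exact ((G0.congrRing t).surjective.comp Prod.fst_surjective).comp e.surjective

/-- Finite generation of all groups `G_0(A)` is finite generation for the cubics. -/
theorem fg_iff' :
    (∀ (A : Type u) [CommRing A] [Algebra k A] [Algebra.FiniteType k A], AddGroup.FG (G0 A)) ↔
    ∀ (n : ℕ) (S : Finset (Finset (Fin n))) (I : Finset (Fin n)), Sparse S I →
      AddGroup.FG (G0 (Hyp k S)) := by
  constructor
  · intro h1 n S I _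
    exact h1 (Hyp k S)
  · intro h1 A _ _ _
    obtain ⟨n, S, I, hS, f, hf⟩ := exists_surjection' h k hk A
    have := h1 n S I hS
    exact AddGroup.fg_of_surjective hf

/-- Finiteness of the rational ranks. -/
theorem rat_iff' :
    (∀ (A : Type u) [CommRing A] [Algebra k A] [Algebra.FiniteType k A],
      Module.Finite ℚ (ℚ ⊗[ℤ] G0 A)) ↔
    ∀ (n : ℕ) (S : Finset (Finset (Fin n))) (I : Finset (Fin n)), Sparse S I →
      Module.Finite ℚ (ℚ ⊗[ℤ] G0 (Hyp k S)) := by
  constructor
  · intro h1 n S I _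
    exact h1 (Hyp k S)
  · intro h1 A _ _ _
    obtain ⟨n, S, I, hS, f, hf⟩ := exists_surjection' h k hk A
    have := h1 n S I hS
    exact Module.Finite.of_surjective (LinearMap.baseChange ℚ f.toIntLinearMap)
      (LinearMap.lTensor_surjective ℚ hf)

end

end Pool.Agent.GZT
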