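import Mathlib

/-!
# Systems of equations whose terms are square free monomials with coefficient one
-/

universe u v w

namespace Pool.Agent.GZT

open MvPolynomial

variable {k : Type u} [CommRing k] {V L : Type}

/-- The sum of the square free monomials `∏_{v ∈ s} X_v`, `s ∈ S`. -/
noncomputable def hsum (k : Type u) [CommRing k] {V : Type} (S : Finset (Finset V)) :
    MvPolynomial V k := ∑ s ∈ S, ∏ v ∈ s, X v

theorem aeval_hsum {B : Type w} [CommRing B] [Algebra k B] (b : V → B) (S : Finset (Finset V)) :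
    aeval b (hsum k S) = ∑ s ∈ S, ∏ v ∈ s, b v := by
  unfold hsum
  rw [map_sum]
  refine Finset.sum_congr rfl fun s _ => ?_
  rw [map_prod]
  exact Finset.prod_congr rfl fun v _ => aeval_X _ _

/-- The ideal of the equations. -/
noncomputable def Sys.ideal (k : Type u) [CommRing k] {V L : Type} (S : L → Finset (Finset V)) :
    Ideal (MvPolynomial V k) := Ideal.span (Set.range fun l => hsum k (S l))

/-- The algebra with the generators `x_v` and the relations `∑_{s ∈ S l} ∏_{v ∈ s} x_v = 0`. -/
def Sys (k : Type u) [CommRing k] {V L : Type} (S : L → Finset (Finset V)) : Type u :=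
  MvPolynomial V k ⧸ Sys.ideal k S

noncomputable instance (S : L → Finset (Finset V)) : CommRing (Sys k S) :=
  Ideal.Quotient.commRing (Sys.ideal k S)

noncomputable instance (S : L → Finset (Finset V)) : Algebra k (Sys k S) :=
  Ideal.Quotient.algebra k

/-- The generators. -/
noncomputable def Sys.x (k : Type u) [CommRing k] (S : L → Finset (Finset V)) (v : V) : Sys k S :=
  Ideal.Quotient.mk (Sys.ideal k S) (X v)

/-- The projection. -/
noncomputable def Sys.mk (k : Type u) [CommRing k] (S : L → Finset (Finset V)) :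
    MvPolynomial V k →ₐ[k] Sys k S := Ideal.Quotient.mkₐ k (Sys.ideal k S)

theorem Sys.mk_surjective (S : L → Finset (Finset V)) : Function.Surjective (Sys.mk k S) :=
  Ideal.Quotient.mk_surjective

theorem Sys.mk_X (S : L → Finset (Finset V)) (v : V) : Sys.mk k S (X v) = Sys.x k S v := rfl

theorem Sys.mk_eq_aeval (S : L → Finset (Finset V)) : Sys.mk k S = aeval (Sys.x k S) := by
  ext v
  rw [aeval_X, Sys.mk_X]

theorem Sys.rel (S : L → Finset (Finset V)) (l : L) :
    ∑ s ∈ S l, ∏ v ∈ s, Sys.x k S v = 0 := by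
  rw [← aeval_hsum (k := k), ← Sys.mk_eq_aeval]
  exact Ideal.Quotient.eq_zero_iff_mem.2 (Ideal.subset_span ⟨l, rfl⟩)

/-- The homomorphism defined by a solution of the equations. -/
noncomputable def Sys.lift (S : L → Finset (Finset V)) {B : Type w} [CommRing B] [Algebra k B]
    (b : V → B) (h : ∀ l, ∑ s ∈ S l, ∏ v ∈ s, b v = 0) : Sys k S →ₐ[k] B :=
  Ideal.Quotient.liftₐ (Sys.ideal k S) (aeval b) (by
    intro a ha
    have h1 : Sys.ideal k S ≤ RingHom.ker (aeval b : MvPolynomial V k →ₐ[k] B) := by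
      unfold Sys.ideal
      rw [Ideal.span_le]
      rintro _ ⟨l, rfl⟩
      change aeval b (hsum k (S l)) = 0
      rw [aeval_hsum, h l]
    exact h1 ha)

theorem Sys.lift_x (S : L → Finset (Finset V)) {B : Type w} [CommRing B] [Algebra k B]
    (b : V → B) (h : ∀ l, ∑ s ∈ S l, ∏ v ∈ s, b v = 0) (v : V) :
    Sys.lift (k := k) S b h (Sys.x k S v) = b v := aeval_X _ _

theorem Sys.hom_ext {S : L → Finset (Finset V)} {B : Type w} [CommRing B] [Algebra k B]
    {φ ψ : Sys k S →ₐ[k] B} (h : ∀ v, φ (Sys.x k S v) = ψ (Sys.x k S v)) : φ = ψ := by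
  apply Ideal.Quotient.algHom_ext
  apply MvPolynomial.algHom_ext
  exact h

theorem Sys.adjoin (S : L → Finset (Finset V)) :
    Algebra.adjoin k (Set.range (Sys.x k S)) = ⊤ := by
  rw [Algebra.adjoin_range_eq_range_aeval, ← Sys.mk_eq_aeval]
  exact (AlgHom.range_eq_top _).2 (Sys.mk_surjective S)

/-- The elements `a_v` generate `A` over `k`, and the relations between them are generated by
`∑_{s ∈ S l} ∏_{v ∈ s} a_v = 0`. -/
structure IsPres (k : Type u) [CommRing k] {V L : Type} (S : L → Finset (Finset V)) {A : Type v}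
    [CommRing A] [Algebra k A] (a : V → A) : Prop where
  rel : ∀ l, ∑ s ∈ S l, ∏ v ∈ s, a v = 0
  gen : Algebra.adjoin k (Set.range a) = ⊤
  ret : ∃ g : A →ₐ[k] Sys k S, ∀ v, g (a v) = Sys.x k S v

theorem IsPres.sys (S : L → Finset (Finset V)) : IsPres k S (Sys.x k S) :=
  ⟨Sys.rel S, Sys.adjoin S, AlgHom.id k _, fun _ => rfl⟩

theorem algHom_ext_of_adjoin {A : Type v} [CommRing A] [Algebra k A] {a : V → A}
    (h : Algebra.adjoin k (Set.range a) = ⊤) {B : Type w} [CommRing B] [Algebra k B]
    {φ ψ : A →ₐ[k] B} (h' : ∀ v, φ (a v) = ψ (a v)) : φ = ψ := by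
  apply AlgHom.ext_of_adjoin_eq_top h
  rintro _ ⟨v, rfl⟩
  exact h' v

/-- The isomorphism of a presentation. -/
theorem IsPres.equiv {S : L → Finset (Finset V)} {A : Type v} [CommRing A] [Algebra k A]
    {a : V → A} (h : IsPres k S a) : ∃ e : Sys k S ≃ₐ[k] A, ∀ v, e (Sys.x k S v) = a v := by
  obtain ⟨g, hg⟩ := h.ret
  refine ⟨AlgEquiv.ofAlgHom (Sys.lift S a h.rel) g ?_ ?_, fun v => Sys.lift_x S a h.rel v⟩
  · refine algHom_ext_of_adjoin h.gen fun v => ?_
    rw [AlgHom.comp_apply, hg, Sys.lift_x, AlgHom.id_apply]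
  · refine Sys.hom_ext fun v => ?_
    rw [AlgHom.comp_apply, Sys.lift_x, hg, AlgHom.id_apply]

/-- The universal property of a presentation. -/
theorem IsPres.exists_hom {S : L → Finset (Finset V)} {A : Type v} [CommRing A] [Algebra k A]
    {a : V → A} (h : IsPres k S a) {B : Type w} [CommRing B] [Algebra k B] (b : V → B)
    (hb : ∀ l, ∑ s ∈ S l, ∏ v ∈ s, b v = 0) : ∃ g : A →ₐ[k] B, ∀ v, g (a v) = b v := by
  obtain ⟨g, hg⟩ := h.ret
  refine ⟨(Sys.lift S b hb).comp g, fun v => ?_⟩
  rw [AlgHom.comp_apply, hg, Sys.lift_x]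

/-- The old equations in the new variables. -/
def liftS {V V' : Type} (i : V ↪ V') (S : Finset (Finset V)) : Finset (Finset V') :=
  S.map (Finset.mapEmbedding i).toEmbedding

theorem sum_liftS {V V' : Type} (i : V ↪ V') (S : Finset (Finset V)) {B : Type w} [CommRing B]
    (b : V' → B) : ∑ s ∈ liftS i S, ∏ v ∈ s, b v = ∑ s ∈ S, ∏ v ∈ s, b (i v) := by
  unfold liftS
  rw [Finset.sum_map]
  refine Finset.sum_congr rfl fun s _ => ?_
  exact Finset.prod_map _ _ _

theorem card_liftS {V V' : Type} (i : V ↪ V') (S : Finset (Finset V)) :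
    (liftS i S).card = S.card := Finset.card_map _

theorem mem_liftS {V V' : Type} (i : V ↪ V') (S : Finset (Finset V)) (s' : Finset V') :
    s' ∈ liftS i S ↔ ∃ s ∈ S, s.map i = s' := by
  unfold liftS
  rw [Finset.mem_map]
  rfl

theorem card_of_mem_liftS {V V' : Type} (i : V ↪ V') {S : Finset (Finset V)} {n : ℕ}
    (h : ∀ s ∈ S, s.card ≤ n) : ∀ s ∈ liftS i S, s.card ≤ n := by
  intro s' hs'
  obtain ⟨s, hs, rfl⟩ := (mem_liftS i S s').1 hs'
  rw [Finset.card_map]
  exact h s hs

open Classical in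
/-- The system with a new variable `c` and the new equation `c + ∑_{s ∈ M} ∏_{v ∈ s} x_v = 0`. -/
noncomputable def adjS (S : L → Finset (Finset V)) (M : Finset (Finset V)) :
    Option L → Finset (Finset (Option V))
  | none => insert {none} (liftS Function.Embedding.some M)
  | some l => liftS Function.Embedding.some (S l)

theorem none_notMem_liftS (M : Finset (Finset V)) :
    ({none} : Finset (Option V)) ∉ liftS Function.Embedding.some M := by
  intro h
  obtain ⟨s, -, hs⟩ := (mem_liftS _ _ _).1 h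
  have h1 : (none : Option V) ∈ s.map Function.Embedding.some := by
    rw [hs]
    exact Finset.mem_singleton_self _
  rw [Finset.mem_map] at h1
  obtain ⟨v, -, hv⟩ := h1
  exact Option.some_ne_none v hv

theorem sum_adjS_none (S : L → Finset (Finset V)) (M : Finset (Finset V)) {B : Type w}
    [CommRing B] (b : Option V → B) :
    ∑ s ∈ adjS S M none, ∏ v ∈ s, b v = b none + ∑ s ∈ M, ∏ v ∈ s, b (some v) := by
  classical
  change ∑ s ∈ insert {none} (liftS Function.Embedding.some M), ∏ v ∈ s, b v = _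
  rw [Finset.sum_insert (none_notMem_liftS M), sum_liftS, Finset.prod_singleton]
  rfl

theorem sum_adjS_some (S : L → Finset (Finset V)) (M : Finset (Finset V)) (l : L) {B : Type w}
    [CommRing B] (b : Option V → B) :
    ∑ s ∈ adjS S M (some l), ∏ v ∈ s, b v = ∑ s ∈ S l, ∏ v ∈ s, b (some v) :=
  sum_liftS _ _ _

/-- Adjunction of an element `c` with `-c = ∑_{s ∈ M} ∏_{v ∈ s} a_v`. -/
theorem IsPres.adj {S : L → Finset (Finset V)} {A : Type v} [CommRing A] [Algebra k A]
    {a : V → A} (h : IsPres k S a) (M : Finset (Finset V)) (c : A)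
    (hM : c + ∑ s ∈ M, ∏ v ∈ s, a v = 0) :
    IsPres k (adjS S M) (fun o : Option V => o.elim c a) := by
  refine ⟨fun l => ?_, ?_, ?_⟩
  · cases l with
    | none =>
      rw [sum_adjS_none]
      exact hM
    | some l =>
      rw [sum_adjS_some]
      exact h.rel l
  · rw [eq_top_iff, ← h.gen]
    refine Algebra.adjoin_mono ?_
    rintro _ ⟨v, rfl⟩
    exact ⟨some v, rfl⟩
  · obtain ⟨g, hg⟩ := h.exists_hom (fun v => Sys.x k (adjS S M) (some v)) (fun l => by
      rw [← sum_adjS_some S M l]
      exact Sys.rel (adjS S M) (some l))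
    refine ⟨g, fun o => ?_⟩
    cases o with
    | some v => exact hg v
    | none =>
      change g c = _
      have h1 : c = - ∑ s ∈ M, ∏ v ∈ s, a v := eq_neg_of_add_eq_zero_left hM
      have h2 := Sys.rel (k := k) (adjS S M) none
      rw [sum_adjS_none] at h2
      rw [h1, map_neg, map_sum, eq_neg_of_add_eq_zero_left h2]
      congr 1
      refine Finset.sum_congr rfl fun s _ => ?_
      rw [map_prod]
      exact Finset.prod_congr rfl fun v _ => hg v

theorem card_adjS {S : L → Finset (Finset V)} {M : Finset (Finset V)}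
    (h : ∀ l, (S l).card ≤ 3) (hM : M.card ≤ 2) : ∀ l, (adjS S M l).card ≤ 3 := by
  classical
  intro l
  cases l with
  | none =>
    refine (Finset.card_insert_le _ _).trans ?_
    rw [card_liftS]
    omega
  | some l =>
    change (liftS _ (S l)).card ≤ 3
    rw [card_liftS]
    exact h l

theorem card_of_mem_adjS {S : L → Finset (Finset V)} {M : Finset (Finset V)}
    (h : ∀ l, ∀ s ∈ S l, s.card ≤ 2) (hM : ∀ s ∈ M, s.card ≤ 2) :
    ∀ l, ∀ s ∈ adjS S M l, s.card ≤ 2 := by
  classical
  intro l
  cases l with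
  | none =>
    intro s hs
    rcases Finset.mem_insert.1 hs with rfl | hs
    · rw [Finset.card_singleton]
      omega
    · exact card_of_mem_liftS _ hM s hs
  | some l => exact card_of_mem_liftS _ (h l)

/-- The system with the new equations `x_{w j} = 0`. -/
def quotS (S : L → Finset (Finset V)) {J : Type} (w : J → V) : L ⊕ J → Finset (Finset V) :=
  Sum.elim S (fun j => {{w j}})

/-- The quotient by the ideal generated by the `a_{w j}`. -/
theorem IsPres.quot {S : L → Finset (Finset V)} {A : Type v} [CommRing A] [Algebra k A]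
    {a : V → A} (h : IsPres k S a) {J : Type} (w : J → V) {B : Type v} [CommRing B] [Algebra k B]
    (p : A →ₐ[k] B) (hp : Function.Surjective p)
    (hk : RingHom.ker p = Ideal.span (Set.range fun j => a (w j))) :
    IsPres k (quotS S w) (fun v => p (a v)) := by
  have hpw : ∀ j, p (a (w j)) = 0 := fun j => by
    have h1 : a (w j) ∈ RingHom.ker p := by
      rw [hk]
      exact Ideal.subset_span ⟨j, rfl⟩
    exact h1
  refine ⟨fun l => ?_, ?_, ?_⟩
  · rcases l with l | j
    · change ∑ s ∈ S l, ∏ v ∈ s, p (a v) = 0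
      rw [← map_zero p, ← h.rel l, map_sum]
      exact Finset.sum_congr rfl fun s _ => (map_prod p _ _).symm
    · change ∑ s ∈ ({{w j}} : Finset (Finset V)), ∏ v ∈ s, p (a v) = 0
      rw [Finset.sum_singleton, Finset.prod_singleton, hpw]
  · rw [show (Set.range fun v => p (a v)) = p '' Set.range a by
      rw [← Set.range_comp]; rfl, ← AlgHom.map_adjoin, h.gen, Algebra.map_top]
    exact (AlgHom.range_eq_top p).2 hp
  · obtain ⟨g, hg⟩ := h.exists_hom (Sys.x k (quotS S w)) (fun l => Sys.rel (quotS S w) (Sum.inl l))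
    have hgw : ∀ j, g (a (w j)) = 0 := fun j => by
      have h2 := Sys.rel (k := k) (quotS S w) (Sum.inr j)
      change ∑ s ∈ ({{w j}} : Finset (Finset V)), _ = 0 at h2
      rw [Finset.sum_singleton, Finset.prod_singleton] at h2
      rw [hg, h2]
    have hker : RingHom.ker p ≤ RingHom.ker g := by
      rw [hk, Ideal.span_le]
      rintro _ ⟨j, rfl⟩
      exact hgw j
    refine ⟨AlgHom.liftOfSurjective p hp g hker, fun v => ?_⟩
    rw [AlgHom.liftOfSurjective_apply, hg]

end Pool.Agent.GZT
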