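import Pool.Agent.GZero.GenM
import Pool.Agent.GZT.Sys

/-!
# The hypersurface `w^2 - w = ∑_{s ∈ S} ∏_{v ∈ s} x_v`
-/

universe u v w

set_option linter.unusedSectionVars false
set_option linter.style.haveILetI false

namespace Pool.Agent.GZT

open TensorProduct MvPolynomial Pool.Agent.GZero

/-- The polynomial `∑_{s ∈ S} ∏_{v ∈ s} x_v + w - w^2` in the variables `x_1, …, x_n` and `w`. -/
noncomputable def hyp (k : Type u) [CommRing k] {n : ℕ} (S : Finset (Finset (Fin n))) :
    MvPolynomial (Option (Fin n)) k :=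
  ∑ s ∈ S, ∏ v ∈ s, X (some v) + (X none - X none ^ 2)

/-- The algebra of functions on the hypersurface `w^2 - w = ∑_{s ∈ S} ∏_{v ∈ s} x_v`. -/
def Hyp (k : Type u) [CommRing k] {n : ℕ} (S : Finset (Finset (Fin n))) : Type u :=
  MvPolynomial (Option (Fin n)) k ⧸ Ideal.span {hyp k S}

noncomputable instance (k : Type u) [CommRing k] {n : ℕ} (S : Finset (Finset (Fin n))) :
    CommRing (Hyp k S) := Ideal.Quotient.commRing (Ideal.span {hyp k S})

noncomputable instance (k : Type u) [CommRing k] {n : ℕ} (S : Finset (Finset (Fin n))) :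
    Algebra k (Hyp k S) := Ideal.Quotient.algebra k

variable {k : Type u} [CommRing k] {V L : Type}

section tot

variable (T : L → Finset (Finset V))

/-- The monomial `x_l ∏_{v ∈ s} x_v`. -/
def gmon : (Σ l : L, {s // s ∈ T l}) ↪ Finset (L ⊕ V) :=
  ⟨fun o => ({o.1} : Finset L).disjSum o.2.1, by
    rintro ⟨l, s, hs⟩ ⟨l', s', hs'⟩ h
    have h1 := Finset.disjSum_inj.1 h
    have h2 : l = l' := Finset.singleton_injective h1.1
    subst h2
    have h3 : s = s' := h1.2
    subst h3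
    rfl⟩

/-- The set of the monomials of `∑_l x_l f_l`, `f_l = ∑_{s ∈ T l} ∏_{v ∈ s} x_v`. -/
def tot [Fintype L] {n : ℕ} (e : L ⊕ V ≃ Fin n) : Finset (Finset (Fin n)) :=
  liftS e.toEmbedding (Finset.univ.map (gmon T))

variable [Fintype L] {n : ℕ} (e : L ⊕ V ≃ Fin n)

theorem mem_tot (t : Finset (Fin n)) : t ∈ tot T e ↔
    ∃ l, ∃ s ∈ T l, (({l} : Finset L).disjSum s).map e.toEmbedding = t := by
  unfold tot
  rw [mem_liftS]
  constructor
  · rintro ⟨u, hu, rfl⟩
    obtain ⟨o, -, rfl⟩ := Finset.mem_map.1 hu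
    exact ⟨o.1, o.2.1, o.2.2, rfl⟩
  · rintro ⟨l, s, hs, rfl⟩
    exact ⟨_, Finset.mem_map.2 ⟨⟨l, s, hs⟩, Finset.mem_univ _, rfl⟩, rfl⟩

theorem sum_tot {B : Type w} [CommRing B] (b : Fin n → B) :
    ∑ s ∈ tot T e, ∏ v ∈ s, b v =
      ∑ l, b (e (Sum.inl l)) * ∑ s ∈ T l, ∏ v ∈ s, b (e (Sum.inr v)) := by
  unfold tot
  rw [sum_liftS, Finset.sum_map, Fintype.sum_sigma]
  refine Finset.sum_congr rfl fun l _ => ?_
  rw [← Finset.sum_attach (T l), Finset.mul_sum]
  refine Finset.sum_congr rfl fun s _ => ?_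
  change ∏ v ∈ ({l} : Finset L).disjSum s.1, b (e v) = _
  rw [Finset.prod_disjSum, Finset.prod_singleton]

end tot

/-- Variables. -/
def optSum (L V : Type) : Option (L ⊕ V) ≃ L ⊕ Option V where
  toFun
    | none => Sum.inr none
    | some (Sum.inl l) => Sum.inl l
    | some (Sum.inr v) => Sum.inr (some v)
  invFun
    | Sum.inl l => some (Sum.inl l)
    | Sum.inr none => none
    | Sum.inr (some v) => some (Sum.inr v)
  left_inv := by rintro (_ | _ | _) <;> rfl
  right_inv := by rintro (_ | _ | _) <;> rfl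

section equiv

variable [Fintype L] {n m r : ℕ} (T : L → Finset (Finset V)) (e : L ⊕ V ≃ Fin n) (eL : L ≃ Fin r)
  (eV : V ≃ Fin m)

/-- The polynomials `f_l`. -/
noncomputable def fpol (k : Type u) [CommRing k] (l : Fin r) : MvPolynomial (Fin m) k :=
  rename eV (hsum k (T (eL.symm l)))

/-- Identification of the variables. -/
def varE : Option (Fin n) ≃ Fin r ⊕ Option (Fin m) :=
  (Equiv.optionCongr e.symm).trans ((optSum L V).trans (Equiv.sumCongr eL (Equiv.optionCongr eV)))

theorem varE_none : varE e eL eV none = Sum.inr none := rfl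

theorem varE_inl (l : L) : varE e eL eV (some (e (Sum.inl l))) = Sum.inl (eL l) := by
  unfold varE
  rw [Equiv.trans_apply, Equiv.optionCongr_apply, Option.map_some, Equiv.symm_apply_apply]
  rfl

theorem varE_inr (v : V) : varE e eL eV (some (e (Sum.inr v))) = Sum.inr (some (eV v)) := by
  unfold varE
  rw [Equiv.trans_apply, Equiv.optionCongr_apply, Option.map_some, Equiv.symm_apply_apply]
  rfl

theorem rename_hyp : rename (varE e eL eV) (hyp k (tot T e)) = cubic (fpol T eL eV k) := by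
  unfold hyp cubic
  rw [map_add, map_sub, map_pow, rename_X, varE_none]
  congr 1
  have h1 : rename (varE e eL eV) (∑ s ∈ tot T e, ∏ v ∈ s, (X (some v) : MvPolynomial _ k)) =
      ∑ s ∈ tot T e, ∏ v ∈ s, X (varE e eL eV (some v)) := by
    rw [map_sum]
    refine Finset.sum_congr rfl fun s _ => ?_
    rw [map_prod]
    exact Finset.prod_congr rfl fun v _ => rename_X _ _
  rw [h1, sum_tot T e (fun v => (X (varE e eL eV (some v)) : MvPolynomial _ k)),
    ← Equiv.sum_comp eL]
  refine Finset.sum_congr rfl fun l _ => ?_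
  rw [varE_inl]
  congr 1
  unfold fpol hsum
  rw [Equiv.symm_apply_apply, rename_rename, map_sum]
  refine Finset.sum_congr rfl fun s _ => ?_
  rw [map_prod]
  refine Finset.prod_congr rfl fun v _ => ?_
  rw [rename_X, varE_inr]
  rfl

/-- The hypersurface is the hypersurface `Cub`. -/
noncomputable def hypEquiv : Hyp k (tot T e) ≃ₐ[k] Cub (fpol T eL eV k) :=
  Ideal.quotientEquivAlg _ _ (renameEquiv k (varE e eL eV)) (by
    rw [Ideal.map_span, Set.image_singleton]
    congr 2
    exact (rename_hyp T e eL eV).symm)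

/-- The algebra `Quo` is the algebra of the system. -/
noncomputable def quoEquiv : Quo (fpol T eL eV k) ≃ₐ[k] Sys k T :=
  (Ideal.quotientEquivAlg _ _ (renameEquiv k eV) (by
    unfold Sys.ideal
    rw [Ideal.map_span, ← Set.range_comp]
    congr 1
    ext p
    constructor
    · rintro ⟨l, rfl⟩
      exact ⟨eL.symm l, rfl⟩
    · rintro ⟨l, rfl⟩
      refine ⟨eL l, ?_⟩
      unfold fpol
      rw [Equiv.symm_apply_apply]
      rfl) : Sys k T ≃ₐ[k] Quo (fpol T eL eV k)).symm

end equiv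

/-- The group `G_0` of the hypersurface. -/
theorem hyp_iso [IsNoetherianRing k] [Fintype L] [Finite V] {n : ℕ} (T : L → Finset (Finset V))
    (e : L ⊕ V ≃ Fin n) : Algebra.Smooth k (Hyp k (tot T e)) ∧
      ∃ g : G0 (Hyp k (tot T e)) ≃+ G0 (Sys k T) × G0 k,
        ∀ Q : FMod k, g (G0.mk (Q.ext (Hyp k (tot T e)))) = (0, G0.mk Q) := by
  obtain ⟨r, ⟨eL⟩⟩ := Finite.exists_equiv_fin L
  obtain ⟨m, ⟨eV⟩⟩ := Finite.exists_equiv_fin V
  obtain ⟨h1, g1, h2, -⟩ := cub_iso (fpol T eL eV k)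
  let E : Hyp k (tot T e) ≃ₐ[k] Cub (fpol T eL eV k) := hypEquiv T e eL eV
  let F : Quo (fpol T eL eV k) ≃ₐ[k] Sys k T := quoEquiv T eL eV
  refine ⟨Algebra.Smooth.of_equiv E.symm, ((G0.congrRing E.toRingEquiv).trans g1).trans
    ((G0.congrRing F.toRingEquiv).prodCongr (AddEquiv.refl (G0 k))), fun Q => ?_⟩
  have h3 := congrRing_bc E Q
  have h4 : G0.congrRing E.toRingEquiv (G0.mk (Q.ext (Hyp k (tot T e)))) =
      G0.mk (Q.ext (Cub (fpol T eL eV k))) := h3
  rw [AddEquiv.trans_apply, AddEquiv.trans_apply, h4, h2]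
  change (G0.congrRing F.toRingEquiv 0, G0.mk Q) = (0, G0.mk Q)
  rw [map_zero]

end Pool.Agent.GZT
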