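import Pool.Agent.GZT.Hyp

/-!
# Reduction of finite generation for all finitely generated rings to the cubics
-/

universe u v w

namespace Pool.Agent.GZT

open MvPolynomial Pool.Agent.GZero TensorProduct

/-- Sets of monomials `∏_{v ∈ s} x_v`, `s ∈ S`, of degree at most three, each containing exactly
one of the variables in `I`, such that every variable occurs in at most three of them. -/
def Sparse {n : ℕ} (S : Finset (Finset (Fin n))) (I : Finset (Fin n)) : Prop :=
  (∀ s ∈ S, s.card ≤ 3 ∧ (s ∩ I).card = 1) ∧ ∀ v, (S.filter fun s => v ∈ s).card ≤ 3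

/-- The first part of the theorem. -/
def Part1 : Prop :=
  ∀ (A : Type u) [CommRing A] [Algebra.FiniteType ℤ A],
    ∃ (n : ℕ) (S : Finset (Finset (Fin n))) (I : Finset (Fin n)), Sparse S I ∧
      ∀ (k : Type u) [CommRing k] [IsNoetherianRing k], Algebra.Smooth k (Hyp k S) ∧
        ∃ e : G0 (Hyp k S) ≃+ G0 (k ⊗[ℤ] A) × G0 k,
          ∀ Q : FMod k, e (G0.mk (Q.ext (Hyp k S))) = (0, G0.mk Q)

/-- Tensor product with a quotient of `ℤ`. -/
theorem tensor_equiv (k : Type u) [CommRing k] (hk : Function.Surjective (Int.castRingHom k))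
    (A : Type u) [CommRing A] [Algebra k A] : Nonempty (k ⊗[ℤ] A ≃+* A) := by
  let inc : A →ₐ[ℤ] k ⊗[ℤ] A := Algebra.TensorProduct.includeRight
  let f : k ⊗[ℤ] A →ₐ[ℤ] A :=
    Algebra.TensorProduct.lift (algebraMap k A).toIntAlgHom (AlgHom.id ℤ A)
      (fun _ _ => Commute.all _ _)
  have h1 : ∀ a, f (inc a) = a := fun a => by
    change f ((1 : k) ⊗ₜ a) = a
    rw [Algebra.TensorProduct.lift_tmul, map_one, one_mul]
    rfl
  have h2 : Function.Surjective inc := by
    intro x
    induction x using TensorProduct.induction_on with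
    | zero => exact ⟨0, map_zero _⟩
    | tmul c a =>
      obtain ⟨n, rfl⟩ := hk c
      refine ⟨n • a, ?_⟩
      change (1 : k) ⊗ₜ[ℤ] (n • a) = _
      rw [← TensorProduct.smul_tmul]
      congr 1
      simp
    | add x y hx hy =>
      obtain ⟨a, ha⟩ := hx
      obtain ⟨b, hb⟩ := hy
      exact ⟨a + b, by rw [map_add, ha, hb]⟩
  have h3 : Function.Injective inc := fun a b hab => by rw [← h1 a, ← h1 b, hab]
  exact ⟨(RingEquiv.ofBijective (inc : A →+* k ⊗[ℤ] A) ⟨h3, h2⟩).symm⟩

instance (k : Type u) [CommRing k] {n : ℕ} (S : Finset (Finset (Fin n))) :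
    Algebra.FiniteType k (Hyp k S) :=
  Algebra.FiniteType.of_surjective (Ideal.Quotient.mkₐ k (Ideal.span {hyp k S}))
    Ideal.Quotient.mk_surjective

theorem exists_surjection (h : Part1.{u}) (k : Type u) [CommRing k]
    (hk : Function.Surjective (Int.castRingHom k)) (A : Type u) [CommRing A] [Algebra k A]
    [Algebra.FiniteType k A] :
    ∃ (n : ℕ) (S : Finset (Finset (Fin n))) (I : Finset (Fin n)), Sparse S I ∧
      ∃ f : G0 (Hyp k S) →+ G0 A, Function.Surjective f := by
  have h1 : Algebra.FiniteType ℤ k :=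
    Algebra.FiniteType.of_surjective (Algebra.ofId ℤ k) hk
  have h2 : Algebra.FiniteType ℤ A := Algebra.FiniteType.trans h1 inferInstance
  have hn : IsNoetherianRing k := isNoetherianRing_of_surjective ℤ k (Int.castRingHom k) hk
  obtain ⟨n, S, I, hS, h3⟩ := h A
  obtain ⟨-, e, -⟩ := h3 k
  obtain ⟨t⟩ := tensor_equiv k hk A
  refine ⟨n, S, I, hS, ((G0.congrRing t).toAddMonoidHom.comp
    (AddMonoidHom.fst (G0 (k ⊗[ℤ] A)) (G0 k))).comp e.toAddMonoidHom, ?_⟩
  exact ((G0.congrRing t).surjective.comp Prod.fst_surjective).comp e.surjective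

/-- Finite generation of all groups `G_0(A)` is finite generation for the cubics. -/
theorem fg_iff (h : Part1.{u}) (k : Type u) [CommRing k]
    (hk : Function.Surjective (Int.castRingHom k)) :
    (∀ (A : Type u) [CommRing A] [Algebra k A] [Algebra.FiniteType k A], AddGroup.FG (G0 A)) ↔
    ∀ (n : ℕ) (S : Finset (Finset (Fin n))) (I : Finset (Fin n)), Sparse S I →
      AddGroup.FG (G0 (Hyp k S)) := by
  constructor
  · intro h1 n S I _
    exact h1 (Hyp k S)
  · intro h1 A _ _ _
    obtain ⟨n, S, I, hS, f, hf⟩ := exists_surjection h k hk A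
    have := h1 n S I hS
    exact AddGroup.fg_of_surjective hf

/-- Finiteness of the rational ranks. -/
theorem rat_iff (h : Part1.{u}) (k : Type u) [CommRing k]
    (hk : Function.Surjective (Int.castRingHom k)) :
    (∀ (A : Type u) [CommRing A] [Algebra k A] [Algebra.FiniteType k A],
      Module.Finite ℚ (ℚ ⊗[ℤ] G0 A)) ↔
    ∀ (n : ℕ) (S : Finset (Finset (Fin n))) (I : Finset (Fin n)), Sparse S I →
      Module.Finite ℚ (ℚ ⊗[ℤ] G0 (Hyp k S)) := by
  constructor
  · intro h1 n S I _
    exact h1 (Hyp k S)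
  · intro h1 A _ _ _
    obtain ⟨n, S, I, hS, f, hf⟩ := exists_surjection h k hk A
    have := h1 n S I hS
    exact Module.Finite.of_surjective (LinearMap.baseChange ℚ f.toIntLinearMap)
      (LinearMap.lTensor_surjective ℚ hf)

end Pool.Agent.GZT
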