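import Pool.Agent.GZT.Sys
import Pool.Agent.GZT.Def

/-!
# Systems with at most two terms are binomial
-/

universe u v w

namespace Pool.Agent.GZT

open MvPolynomial

open Classical in
/-- The exponents of the square free monomial. -/
noncomputable def ind {V : Type} (s : Finset V) : V → ℕ := fun v => if v ∈ s then 1 else 0

theorem prod_ind {V : Type} [Fintype V] {C : Type u} [CommRing C] (φ : V → C) (s : Finset V) :
    ∏ v, φ v ^ ind s v = ∏ v ∈ s, φ v := by
  classical
  have h : ∀ v, φ v ^ ind s v = if v ∈ s then φ v else 1 := fun v => by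
    unfold ind
    split_ifs <;> simp
  simp only [h]
  rw [Finset.prod_ite_mem, Finset.univ_inter]

/-- The equations with two terms. -/
def eqTwo {V L : Type} (S : L → Finset (Finset V)) : Set ((V → ℕ) × (V → ℕ)) :=
  {p | ∃ l, ∃ s t : Finset V, s ≠ t ∧ (∀ r, r ∈ S l ↔ r = s ∨ r = t) ∧ p = (ind s, ind t)}

/-- The equations with one term. -/
def eqOne {V L : Type} (S : L → Finset (Finset V)) : Set (V → ℕ) :=
  {m | ∃ l, ∃ s : Finset V, S l = {s} ∧ m = ind s}

theorem sat_iff {V L : Type} [Fintype V] (S : L → Finset (Finset V)) (h2 : ∀ l, (S l).card ≤ 2)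
    {C : Type u} [CommRing C] (φ : V → C) :
    Sat (eqTwo S) (eqOne S) ∅ ∅ φ ↔ ∀ l, ∑ s ∈ S l, ∏ v ∈ s, φ v = 0 := by
  classical
  constructor
  · intro h l
    have h3 := h2 l
    rcases Nat.lt_or_ge (S l).card 1 with hl | hl
    · have h0 : S l = ∅ := Finset.card_eq_zero.1 (by omega)
      rw [h0, Finset.sum_empty]
    rcases Nat.lt_or_ge (S l).card 2 with hl2 | hl2
    · obtain ⟨s, hs⟩ := Finset.card_eq_one.1 (show (S l).card = 1 by omega)
      have := h.one (ind s) ⟨l, s, hs, rfl⟩
      rw [prod_ind] at this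
      rw [hs, Finset.sum_singleton, this]
    · obtain ⟨s, t, hst, hs⟩ := Finset.card_eq_two.1 (show (S l).card = 2 by omega)
      have := h.two (ind s, ind t) ⟨l, s, t, hst, fun r => by rw [hs]; simp, rfl⟩
      rw [prod_ind, prod_ind] at this
      rw [hs, Finset.sum_pair hst, this]
  · intro h
    refine ⟨?_, ?_, fun v hv => hv.elim, fun v hv => hv.elim⟩
    · rintro _ ⟨l, s, t, hst, hs, rfl⟩
      have h3 : S l = {s, t} := by
        ext r
        rw [hs]
        simp
      have := h l
      rw [h3, Finset.sum_pair hst] at this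
      rw [prod_ind, prod_ind, this]
    · rintro _ ⟨l, s, hs, rfl⟩
      have := h l
      rw [hs, Finset.sum_singleton] at this
      rw [prod_ind, this]

/-- The algebra of a system with at most two terms in each equation is universal. -/
theorem univ_Sys (k : Type u) [CommRing k] {V L : Type} [Fintype V]
    (S : L → Finset (Finset V)) (h2 : ∀ l, (S l).card ≤ 2) :
    Univ k (eqTwo S) (eqOne S) ∅ ∅ (Sys k S) (Sys.x k S) := by
  refine ⟨(sat_iff S h2 _).2 (Sys.rel S), ?_, ?_⟩
  · intro D _ _ ψ hψ
    exact ⟨Sys.lift S ψ ((sat_iff S h2 ψ).1 hψ), Sys.lift_x S ψ _⟩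
  · intro D _ _ g h hgh
    exact Sys.hom_ext hgh

end Pool.Agent.GZT
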