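import Pool.Agent.GZT.Sys

/-!
# Every variable in at most three monomials
-/

universe u v w

set_option linter.unusedSectionVars false

namespace Pool.Agent.GZT

open MvPolynomial

variable {k : Type u} [CommRing k] {V L : Type}

/-- Every variable occurs in at most three monomials of the system. -/
def Occ3 (S : L → Finset (Finset V)) : Prop :=
  ∀ v, ∃ p q r : Option (L × Finset V),
    ∀ l s, s ∈ S l → v ∈ s → some (l, s) = p ∨ some (l, s) = q ∨ some (l, s) = r

/-- A class of equations in which the variable `v` occurs at most once. -/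
def Once (S : L → Finset (Finset V)) (v : V) : Prop :=
  ∀ l s l' s', s ∈ S l → v ∈ s → s' ∈ S l' → v ∈ s' → (l, s) = (l', s')

theorem Once.exists {S : L → Finset (Finset V)} {v : V} (h : Once S v) :
    ∃ p : Option (L × Finset V), ∀ l s, s ∈ S l → v ∈ s → some (l, s) = p := by
  by_cases h1 : ∃ l s, s ∈ S l ∧ v ∈ s
  · obtain ⟨l, s, hs, hv⟩ := h1
    exact ⟨some (l, s), fun l' s' hs' hv' => congrArg some (h l' s' l s hs' hv' hs hv)⟩
  · exact ⟨none, fun l s hs hv => absurd ⟨l, s, hs, hv⟩ h1⟩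

theorem occ3_of_once {L₁ L₂ L₃ : Type} (S₁ : L₁ → Finset (Finset V))
    (S₂ : L₂ → Finset (Finset V)) (S₃ : L₃ → Finset (Finset V)) (h₁ : ∀ v, Once S₁ v)
    (h₂ : ∀ v, Once S₂ v) (h₃ : ∀ v, Once S₃ v) :
    Occ3 (Sum.elim S₁ (Sum.elim S₂ S₃)) := by
  intro v
  obtain ⟨p, hp⟩ := (h₁ v).exists
  obtain ⟨q, hq⟩ := (h₂ v).exists
  obtain ⟨r, hr⟩ := (h₃ v).exists
  refine ⟨p.map fun x => (Sum.inl x.1, x.2), q.map fun x => (Sum.inr (Sum.inl x.1), x.2),
    r.map fun x => (Sum.inr (Sum.inr x.1), x.2), fun l s hs hv => ?_⟩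
  rcases l with l | l | l
  · left
    rw [← hp l s hs hv]
    rfl
  · right; left
    rw [← hq l s hs hv]
    rfl
  · right; right
    rw [← hr l s hs hv]
    rfl

section split

variable [Finite L] (S : L → Finset (Finset V))

/-- The monomials of the system. -/
abbrev Mons (S : L → Finset (Finset V)) : Type := Σ l : L, {s // s ∈ S l}

/-- The number of monomials. -/
noncomputable def nMons : ℕ := Nat.card (Mons S)

/-- The enumeration of the monomials. -/
noncomputable def pos : Mons S ≃ Fin (nMons S) := Finite.equivFin (Mons S)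

/-- The variables of the new system: copies `y_{v,t}` and `y'_{v,t}`. -/
abbrev SV : Type := V × Fin (nMons S + 1) × Bool

/-- The place of a monomial. -/
noncomputable def plc (o : Mons S) : Fin (nMons S + 1) := (pos S o).castSucc

theorem plc_injective : Function.Injective (plc S) := fun o o' h =>
  (pos S).injective (Fin.castSucc_injective _ h)

/-- The variables `y_{v,t}`. -/
def yEmb (t : Fin (nMons S + 1)) : V ↪ SV S := ⟨fun v => (v, t, false), fun _ _ h =>
  congrArg Prod.fst h⟩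

/-- The new monomial. -/
noncomputable def newMon (o : Mons S) : Finset (SV S) := o.2.1.map (yEmb S (plc S o))

theorem newMon_injective (l : L) :
    Function.Injective fun s : {s // s ∈ S l} => newMon S ⟨l, s⟩ := by
  intro s s' h
  change newMon S ⟨l, s⟩ = newMon S ⟨l, s'⟩ at h
  rcases s.1.eq_empty_or_nonempty with h0 | ⟨v, hv⟩
  · have h1 : newMon S ⟨l, s⟩ = ∅ := by
      unfold newMon
      rw [Finset.map_eq_empty]
      exact h0
    rw [h] at h1
    unfold newMon at h1
    rw [Finset.map_eq_empty] at h1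
    exact Subtype.ext (h0.trans h1.symm)
  · have h1 : (v, plc S ⟨l, s⟩, false) ∈ newMon S ⟨l, s⟩ := Finset.mem_map.2 ⟨v, hv, rfl⟩
    rw [h] at h1
    obtain ⟨v', -, h2⟩ := Finset.mem_map.1 h1
    have h3 : plc S ⟨l, s'⟩ = plc S ⟨l, s⟩ := congrArg (fun x : SV S => x.2.1) h2
    have h4 := plc_injective S h3
    have h5 := Sigma.mk.inj h4
    exact (eq_of_heq h5.2).symm

/-- The old equations. -/
noncomputable def S₁ (l : L) : Finset (Finset (SV S)) :=
  (S l).attach.map ⟨fun s => newMon S ⟨l, s⟩, newMon_injective S l⟩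

open Classical in
/-- The equations `y_{v,t} + y'_{v,t} = 0`. -/
noncomputable def S₂ (p : V × Fin (nMons S + 1)) : Finset (Finset (SV S)) :=
  {{(p.1, p.2, false)}, {(p.1, p.2, true)}}

open Classical in
/-- The equations `y'_{v,t} + y_{v,t+1} = 0`. -/
noncomputable def S₃ (p : V × Fin (nMons S)) : Finset (Finset (SV S)) :=
  {{(p.1, p.2.castSucc, true)}, {(p.1, p.2.succ, false)}}

/-- The new system. -/
noncomputable def spS :
    L ⊕ (V × Fin (nMons S + 1)) ⊕ (V × Fin (nMons S)) → Finset (Finset (SV S)) :=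
  Sum.elim (S₁ S) (Sum.elim (S₂ S) (S₃ S))

theorem sum_S₁ (l : L) {B : Type w} [CommRing B] (b : SV S → B) :
    ∑ s ∈ S₁ S l, ∏ v ∈ s, b v =
      ∑ s ∈ (S l).attach, ∏ v ∈ s.1, b (v, plc S ⟨l, s⟩, false) := by
  unfold S₁
  rw [Finset.sum_map]
  refine Finset.sum_congr rfl fun s _ => ?_
  exact Finset.prod_map _ _ _

theorem sum_pair {W : Type} {x y : W} (h : x ≠ y) {B : Type w} [CommRing B] (b : W → B)
    (S : Finset (Finset W)) (hS : ∀ s, s ∈ S ↔ s = {x} ∨ s = {y}) :
    ∑ s ∈ S, ∏ v ∈ s, b v = b x + b y := by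
  classical
  have h1 : S = {{x}, {y}} := by
    ext s
    rw [hS, Finset.mem_insert, Finset.mem_singleton]
  rw [h1, Finset.sum_pair, Finset.prod_singleton, Finset.prod_singleton]
  intro h2
  exact h (Finset.singleton_injective h2)

theorem mem_S₂ (p : V × Fin (nMons S + 1)) (s : Finset (SV S)) :
    s ∈ S₂ S p ↔ s = {(p.1, p.2, false)} ∨ s = {(p.1, p.2, true)} := by
  classical
  unfold S₂
  rw [Finset.mem_insert, Finset.mem_singleton]

theorem mem_S₃ (p : V × Fin (nMons S)) (s : Finset (SV S)) :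
    s ∈ S₃ S p ↔ s = {(p.1, p.2.castSucc, true)} ∨ s = {(p.1, p.2.succ, false)} := by
  classical
  unfold S₃
  rw [Finset.mem_insert, Finset.mem_singleton]

theorem sum_S₂ (p : V × Fin (nMons S + 1)) {B : Type w} [CommRing B] (b : SV S → B) :
    ∑ s ∈ S₂ S p, ∏ v ∈ s, b v = b (p.1, p.2, false) + b (p.1, p.2, true) :=
  sum_pair (by simp) b _ (mem_S₂ S p)

theorem sum_S₃ (p : V × Fin (nMons S)) {B : Type w} [CommRing B] (b : SV S → B) :
    ∑ s ∈ S₃ S p, ∏ v ∈ s, b v = b (p.1, p.2.castSucc, true) + b (p.1, p.2.succ, false) :=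
  sum_pair (by simp) b _ (mem_S₃ S p)

theorem card_S₁ {n : ℕ} (h : ∀ l, (S l).card ≤ n) (l : L) : (S₁ S l).card ≤ n := by
  unfold S₁
  rw [Finset.card_map, Finset.card_attach]
  exact h l

theorem card_spS (h : ∀ l, (S l).card ≤ 3) (l) : (spS S l).card ≤ 3 := by
  classical
  rcases l with l | p | p
  · exact card_S₁ S h l
  · exact (Finset.card_le_two).trans (by norm_num)
  · exact (Finset.card_le_two).trans (by norm_num)

theorem card_of_mem_spS (h : ∀ l, ∀ s ∈ S l, s.card ≤ 2) (l) : ∀ s ∈ spS S l, s.card ≤ 2 := by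
  intro s hs
  rcases l with l | p | p
  · obtain ⟨s₀, -, rfl⟩ := Finset.mem_map.1 hs
    change (newMon S ⟨l, s₀⟩).card ≤ 2
    unfold newMon
    rw [Finset.card_map]
    exact h l s₀.1 s₀.2
  · rcases (mem_S₂ S p s).1 hs with rfl | rfl
    · rw [Finset.card_singleton]; norm_num
    · rw [Finset.card_singleton]; norm_num
  · rcases (mem_S₃ S p s).1 hs with rfl | rfl
    · rw [Finset.card_singleton]; norm_num
    · rw [Finset.card_singleton]; norm_num

theorem once_S₁ (v : SV S) : Once (S₁ S) v := by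
  intro l s l' s' hs hv hs' hv'
  obtain ⟨s₀, -, rfl⟩ := Finset.mem_map.1 hs
  obtain ⟨s₀', -, rfl⟩ := Finset.mem_map.1 hs'
  change v ∈ newMon S ⟨l, s₀⟩ at hv
  change v ∈ newMon S ⟨l', s₀'⟩ at hv'
  obtain ⟨v₁, -, h1⟩ := Finset.mem_map.1 hv
  obtain ⟨v₂, -, h2⟩ := Finset.mem_map.1 hv'
  have h3 : plc S ⟨l, s₀⟩ = plc S ⟨l', s₀'⟩ :=
    congrArg (fun x : SV S => x.2.1) (h1.trans h2.symm)
  have h4 := plc_injective S h3
  have h5 : ∀ o o' : Mons S, o = o' → (o.1, newMon S o) = (o'.1, newMon S o') := by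
    rintro o _ rfl
    rfl
  exact h5 _ _ h4

theorem once_S₂ (v : SV S) : Once (S₂ S) v := by
  intro p s p' s' hs hv hs' hv'
  have h1 : ∀ (p : V × Fin (nMons S + 1)) (s : Finset (SV S)), s ∈ S₂ S p → v ∈ s →
      p = (v.1, v.2.1) ∧ s = {v} := by
    intro p s hs hv
    rcases (mem_S₂ S p s).1 hs with rfl | rfl
    · rw [Finset.mem_singleton] at hv
      subst hv
      exact ⟨rfl, rfl⟩
    · rw [Finset.mem_singleton] at hv
      subst hv
      exact ⟨rfl, rfl⟩
  obtain ⟨rfl, rfl⟩ := h1 p s hs hv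
  obtain ⟨rfl, rfl⟩ := h1 p' s' hs' hv'
  rfl

theorem once_S₃ (v : SV S) : Once (S₃ S) v := by
  intro p s p' s' hs hv hs' hv'
  have h1 : ∀ (p : V × Fin (nMons S)) (s : Finset (SV S)), s ∈ S₃ S p → v ∈ s →
      s = {v} ∧ p.1 = v.1 ∧ (v.2.2 = true → p.2.castSucc = v.2.1) ∧
        (v.2.2 = false → p.2.succ = v.2.1) := by
    intro p s hs hv
    rcases (mem_S₃ S p s).1 hs with rfl | rfl
    · rw [Finset.mem_singleton] at hv
      subst hv
      exact ⟨rfl, rfl, fun _ => rfl, fun h => absurd h (by simp)⟩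
    · rw [Finset.mem_singleton] at hv
      subst hv
      exact ⟨rfl, rfl, fun h => absurd h (by simp), fun _ => rfl⟩
  obtain ⟨rfl, h2, h3, h4⟩ := h1 p s hs hv
  obtain ⟨rfl, h2', h3', h4'⟩ := h1 p' s' hs' hv'
  have h5 : p.2 = p'.2 := by
    cases hb : v.2.2 with
    | true => exact Fin.castSucc_injective _ ((h3 hb).trans (h3' hb).symm)
    | false => exact Fin.succ_injective _ ((h4 hb).trans (h4' hb).symm)
  rw [Prod.ext (h2.trans h2'.symm) h5]

theorem occ3_spS : Occ3 (spS S) :=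
  occ3_of_once _ _ _ (once_S₁ S) (once_S₂ S) (once_S₃ S)

variable {S}

/-- The new generators. -/
def spA {A : Type v} [CommRing A] (a : V → A) (v : SV S) : A := if v.2.2 then -a v.1 else a v.1

theorem sys_spS_y (v : V) (t : Fin (nMons S + 1)) :
    Sys.x k (spS S) (v, t, false) = Sys.x k (spS S) (v, 0, false) := by
  induction t using Fin.induction with
  | zero => rfl
  | succ t ih =>
    have h2 := Sys.rel (k := k) (spS S) (Sum.inr (Sum.inl (v, t.castSucc)))
    have h3 := Sys.rel (k := k) (spS S) (Sum.inr (Sum.inr (v, t)))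
    change ∑ s ∈ S₂ S (v, t.castSucc), _ = 0 at h2
    change ∑ s ∈ S₃ S (v, t), _ = 0 at h3
    rw [sum_S₂] at h2
    rw [sum_S₃] at h3
    change Sys.x k (spS S) (v, t.castSucc, false) + Sys.x k (spS S) (v, t.castSucc, true) = 0 at h2
    change Sys.x k (spS S) (v, t.castSucc, true) + Sys.x k (spS S) (v, t.succ, false) = 0 at h3
    rw [← ih]
    linear_combination h3 - h2

/-- The new system presents the same algebra. -/
theorem IsPres.split {A : Type v} [CommRing A] [Algebra k A] {a : V → A} (h : IsPres k S a) :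
    IsPres k (spS S) (spA a) := by
  refine ⟨fun l => ?_, ?_, ?_⟩
  · rcases l with l | p | p
    · change ∑ s ∈ S₁ S l, _ = 0
      rw [sum_S₁, ← h.rel l, ← Finset.sum_attach (S l)]
      rfl
    · change ∑ s ∈ S₂ S p, _ = 0
      rw [sum_S₂]
      change a p.1 + -a p.1 = 0
      exact add_neg_cancel _
    · change ∑ s ∈ S₃ S p, _ = 0
      rw [sum_S₃]
      change -a p.1 + a p.1 = 0
      exact neg_add_cancel _
  · rw [eq_top_iff, ← h.gen]
    refine Algebra.adjoin_mono ?_
    rintro _ ⟨v, rfl⟩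
    exact ⟨(v, 0, false), rfl⟩
  · obtain ⟨g, hg⟩ := h.exists_hom (fun v => Sys.x k (spS S) (v, 0, false)) (fun l => by
      have h1 := Sys.rel (k := k) (spS S) (Sum.inl l)
      change ∑ s ∈ S₁ S l, _ = 0 at h1
      rw [sum_S₁] at h1
      rw [← h1, ← Finset.sum_attach (S l)]
      refine Finset.sum_congr rfl fun s _ => Finset.prod_congr rfl fun v _ => ?_
      exact (sys_spS_y v _).symm)
    refine ⟨g, fun v => ?_⟩
    obtain ⟨v, t, b⟩ := v
    cases b with
    | false =>
      exact (hg v).trans (sys_spS_y v t).symm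
    | true =>
      change g (-a v) = _
      rw [map_neg, hg, ← sys_spS_y v t]
      have h2 := Sys.rel (k := k) (spS S) (Sum.inr (Sum.inl (v, t)))
      change ∑ s ∈ S₂ S (v, t), _ = 0 at h2
      rw [sum_S₂] at h2
      exact (eq_neg_of_add_eq_zero_right h2).symm

end split

end Pool.Agent.GZT
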