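import Pool.Agent.GZT.Slp
import Pool.Agent.GZT.Split
import Pool.Agent.GZT.Bas
import Pool.Agent.GZT.Hyp

/-!
# Every `G_0(k ⊗ A) ⊕ G_0(k)` is `G_0` of a smooth cubic with coefficients `0, 1`
-/

universe u v w

set_option linter.unusedSectionVars false
set_option linter.style.haveILetI false

namespace Pool.Agent.GZT

open TensorProduct MvPolynomial Pool.Agent.GZero

variable {V L : Type} [Fintype L] {n : ℕ} (T : L → Finset (Finset V)) (e : L ⊕ V ≃ Fin n)

theorem card_of_mem_tot {m : ℕ} (h : ∀ l, ∀ s ∈ T l, s.card ≤ m) :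
    ∀ t ∈ tot T e, t.card ≤ m + 1 := by
  intro t ht
  obtain ⟨l, s, hs, rfl⟩ := (mem_tot T e t).1 ht
  rw [Finset.card_map, Finset.card_disjSum, Finset.card_singleton, add_comm]
  exact Nat.add_le_add_right (h l s hs) 1

theorem inl_mem_iff (l l' : L) (s : Finset V) :
    e (Sum.inl l') ∈ (({l} : Finset L).disjSum s).map e.toEmbedding ↔ l' = l := by
  rw [Finset.mem_map_equiv, Equiv.symm_apply_apply, Finset.inl_mem_disjSum, Finset.mem_singleton]

theorem inr_mem_iff (l : L) (v : V) (s : Finset V) :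
    e (Sum.inr v) ∈ (({l} : Finset L).disjSum s).map e.toEmbedding ↔ v ∈ s := by
  rw [Finset.mem_map_equiv, Equiv.symm_apply_apply, Finset.inr_mem_disjSum]

theorem card_filter_tot (h1 : ∀ l, (T l).card ≤ 3) (h2 : Occ3 T) (v : Fin n) :
    ((tot T e).filter (fun s => v ∈ s)).card ≤ 3 := by
  classical
  obtain ⟨x, rfl⟩ := e.surjective v
  rcases x with l | v
  · have h3 : (tot T e).filter (fun s => e (Sum.inl l) ∈ s) ⊆
        (T l).image (fun s => (({l} : Finset L).disjSum s).map e.toEmbedding) := by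
      intro t ht
      obtain ⟨ht1, ht2⟩ := Finset.mem_filter.1 ht
      obtain ⟨l', s, hs, rfl⟩ := (mem_tot T e t).1 ht1
      obtain rfl := (inl_mem_iff e l' l s).1 ht2
      exact Finset.mem_image_of_mem _ hs
    exact (Finset.card_le_card h3).trans (Finset.card_image_le.trans (h1 l))
  · obtain ⟨p, q, r, h⟩ := h2 v
    let G : Option (L × Finset V) → Finset (Fin n) := fun o =>
      o.elim ∅ fun x => (({x.1} : Finset L).disjSum x.2).map e.toEmbedding
    have h3 : (tot T e).filter (fun s => e (Sum.inr v) ∈ s) ⊆ {G p, G q, G r} := by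
      intro t ht
      obtain ⟨ht1, ht2⟩ := Finset.mem_filter.1 ht
      obtain ⟨l, s, hs, rfl⟩ := (mem_tot T e t).1 ht1
      have hv := (inr_mem_iff e l v s).1 ht2
      rw [Finset.mem_insert, Finset.mem_insert, Finset.mem_singleton]
      rcases h l s hs hv with h4 | h4 | h4
      · exact Or.inl (by rw [← h4]; rfl)
      · exact Or.inr (Or.inl (by rw [← h4]; rfl))
      · exact Or.inr (Or.inr (by rw [← h4]; rfl))
    exact (Finset.card_le_card h3).trans Finset.card_le_three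

/-- The set of the variables `x_l`. -/
def xset : Finset (Fin n) := Finset.univ.map ((Function.Embedding.inl (β := V)).trans e.toEmbedding)

theorem mem_xset (v : Fin n) : v ∈ xset e ↔ ∃ l, e (Sum.inl l) = v := by
  unfold xset
  rw [Finset.mem_map]
  constructor
  · rintro ⟨l, -, h⟩
    exact ⟨l, h⟩
  · rintro ⟨l, h⟩
    exact ⟨l, Finset.mem_univ l, h⟩

theorem card_inter_xset : ∀ t ∈ tot T e, (t ∩ xset e).card = 1 := by
  intro t ht
  obtain ⟨l, s, hs, rfl⟩ := (mem_tot T e t).1 ht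
  rw [Finset.card_eq_one]
  refine ⟨e (Sum.inl l), ?_⟩
  ext v
  rw [Finset.mem_inter, Finset.mem_singleton, mem_xset]
  constructor
  · rintro ⟨h1, l', rfl⟩
    rw [(inl_mem_iff e l l' s).1 h1]
  · rintro rfl
    exact ⟨(inl_mem_iff e l l s).2 rfl, l, rfl⟩

/-- **Theorem.** For every finitely generated commutative ring `A` there is a cubic with
coefficients `0, 1`, in which every variable occurs in at most three monomials, such that for every
noetherian ring `k` the cubic over `k` is smooth and its `G_0` is `G_0(k ⊗ A) ⊕ G_0(k)`. -/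
theorem exists_cubic (A : Type u) [CommRing A] [Algebra.FiniteType ℤ A] :
    ∃ (n : ℕ) (S : Finset (Finset (Fin n))) (I : Finset (Fin n)),
      (∀ s ∈ S, s.card ≤ 3) ∧ (∀ v, (S.filter (fun s => v ∈ s)).card ≤ 3) ∧
      (∀ s ∈ S, (s ∩ I).card = 1) ∧
      ∀ (k : Type u) [CommRing k] [IsNoetherianRing k], Algebra.Smooth k (Hyp k S) ∧
        ∃ e : G0 (Hyp k S) ≃+ G0 (k ⊗[ℤ] A) × G0 k,
          ∀ Q : FMod k, e (G0.mk (Q.ext (Hyp k S))) = (0, G0.mk Q) := by
  obtain ⟨V₀, L₀, hV₀, hL₀, a₀, S₀, h1, h2, h3⟩ := slp A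
  have h4 := h3.split
  have h5 := card_spS S₀ h1
  have h6 := card_of_mem_spS S₀ h2
  have h7 := occ3_spS S₀
  haveI := Fintype.ofFinite L₀
  haveI := Fintype.ofFinite V₀
  obtain ⟨n, ⟨e⟩⟩ := Finite.exists_equiv_fin
    ((L₀ ⊕ (V₀ × Fin (nMons S₀ + 1)) ⊕ (V₀ × Fin (nMons S₀))) ⊕ SV S₀)
  refine ⟨n, tot (spS S₀) e, xset e, card_of_mem_tot _ _ h6, card_filter_tot _ _ h5 h7,
    card_inter_xset _ _, fun k _ _ => ?_⟩
  obtain ⟨h8, g, hg⟩ := hyp_iso (k := k) (spS S₀) e
  obtain ⟨F⟩ := h4.baseChange_equiv k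
  refine ⟨h8, g.trans ((G0.congrRing F.toRingEquiv).prodCongr (AddEquiv.refl (G0 k))),
    fun Q => ?_⟩
  rw [AddEquiv.trans_apply, hg]
  change (G0.congrRing F.toRingEquiv 0, G0.mk Q) = (0, G0.mk Q)
  rw [map_zero]

end Pool.Agent.GZT
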