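import Pool.Agent.GZero.Homotopy

/-!
# Finite generation of `G_0` of polynomial rings
-/

universe u

set_option linter.style.haveILetI false

namespace Pool.Agent.GZT

open Pool.Agent.GZero
open scoped TensorProduct

/-- Isomorphic rings. -/
theorem fg_congr {A B : Type u} [CommRing A] [CommRing B] (e : A ≃+* B)
    (h : AddGroup.FG (G0 A)) : AddGroup.FG (G0 B) := by
  haveI := h
  exact AddGroup.fg_of_surjective (f := (G0.congrRing e).toAddMonoidHom)
    (G0.congrRing e).surjective

/-- Homotopy invariance: the base change to the polynomial ring is onto. -/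
theorem bc_surjective (B : Type u) [CommRing B] [IsNoetherianRing B] :
    Function.Surjective (G0.bc B (Polynomial B)) := by
  intro x
  have h : QuotientAddGroup.mk' (G0.bc B (Polynomial B)).range x = 0 := by
    refine G0.poly_ext (S := B) (QuotientAddGroup.mk' (G0.bc B (Polynomial B)).range)
      (fun Q => ?_) x
    rw [QuotientAddGroup.mk'_apply, QuotientAddGroup.eq_zero_iff]
    refine ⟨G0.mk Q, ?_⟩
    rw [G0.bc_mk]
    exact G0.cls_congr
      (PolynomialModule.polynomialTensorProductLEquivPolynomialModule (R := B) (M := Q.carrier))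
  rw [QuotientAddGroup.mk'_apply, QuotientAddGroup.eq_zero_iff] at h
  exact h

theorem fg_polynomial (B : Type u) [CommRing B] [IsNoetherianRing B]
    (h : AddGroup.FG (G0 B)) : AddGroup.FG (G0 (Polynomial B)) := by
  haveI := h
  exact AddGroup.fg_of_surjective (f := G0.bc B (Polynomial B)) (bc_surjective B)

theorem fg_mvPolynomial (B : Type u) [CommRing B] [IsNoetherianRing B]
    (h : AddGroup.FG (G0 B)) (m : ℕ) : AddGroup.FG (G0 (MvPolynomial (Fin m) B)) := by
  induction m with
  | zero => exact fg_congr (MvPolynomial.isEmptyRingEquiv B (Fin 0)).symm h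
  | succ m ih =>
    exact fg_congr (MvPolynomial.finSuccEquiv B m).toRingEquiv.symm
      (fg_polynomial (MvPolynomial (Fin m) B) ih)

end Pool.Agent.GZT
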