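import Pool.Agent.GZero.Lattice
import Pool.Agent.GZero.Via

/-!
# Right exactness: `G_0(B/s) → G_0(B) → G_0(B_s) → 0`
-/

universe u v w

set_option linter.unusedSectionVars false
set_option linter.style.haveILetI false

namespace Pool.Agent.GZT

open TensorProduct Pool.Agent.GZero
open LinearMap (ker range)

variable {B : Type u} [CommRing B] (s : B)

/-- Every finitely generated module over the localisation has a lattice. -/
theorem exists_lattice (M : Type u) [AddCommGroup M] [Module (Localization.Away s) M]
    [Module.Finite (Localization.Away s) M] [Module B M]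
    [IsScalarTower B (Localization.Away s) M] : ∃ H : Submodule B M, IsLat s M H := by
  obtain ⟨t, ht⟩ := Module.Finite.fg_top (R := Localization.Away s) (M := M)
  refine ⟨Submodule.span B (t : Set M), ⟨t, rfl⟩, fun x => ?_⟩
  have hx : x ∈ Submodule.span (Localization.Away s) (t : Set M) := by
    rw [ht]
    exact Submodule.mem_top
  induction hx using Submodule.span_induction with
  | mem x hx => exact ⟨0, by rw [pow_zero, one_smul]; exact Submodule.subset_span hx⟩
  | zero => exact ⟨0, by rw [smul_zero]; exact Submodule.zero_mem _⟩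
  | add x y _ _ hx hy =>
    obtain ⟨n, hn⟩ := hx
    obtain ⟨m, hm⟩ := hy
    refine ⟨n + m, ?_⟩
    rw [smul_add]
    refine Submodule.add_mem _ ?_ ?_
    · rw [add_comm, pow_add, mul_smul]
      exact Submodule.smul_mem _ _ hn
    · rw [pow_add, mul_smul]
      exact Submodule.smul_mem _ _ hm
  | smul c x _ hx =>
    obtain ⟨n, hn⟩ := hx
    obtain ⟨⟨a, y⟩, hy⟩ := IsLocalization.surj (Submonoid.powers s) c
    obtain ⟨m, hm⟩ := y.2
    refine ⟨m + n, ?_⟩
    have h1 : (s ^ (m + n)) • c • x = a • (s ^ n) • x := by
      rw [← algebraMap_smul (Localization.Away s) (s ^ (m + n)) (c • x),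
        ← algebraMap_smul (Localization.Away s) a ((s ^ n) • x),
        ← algebraMap_smul (Localization.Away s) (s ^ n) x, smul_smul, smul_smul]
      congr 1
      change c * algebraMap B (Localization.Away s) y = algebraMap B _ a at hy
      rw [pow_add, map_mul, ← hy, ← hm]
      ring
    rw [h1]
    exact Submodule.smul_mem _ _ hn

/-- The class of a module killed by `s` comes from `G_0(B/s)`. -/
theorem mk_mem_range (Q : FMod B) (hQ : ∀ q : Q.carrier, s • q = 0) :
    G0.mk Q ∈ (G0.res (Ideal.Quotient.mk (Ideal.span {s}))
      Ideal.Quotient.mk_surjective).range := by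
  have h1 : Module.IsTorsionBySet B Q.carrier (Ideal.span {s} : Ideal B) :=
    (Module.isTorsionBySet_span_singleton_iff (R := B) (M := Q.carrier) s).2 fun q => hQ q
  letI i1 : Module (B ⧸ Ideal.span {s}) Q.carrier := h1.module
  haveI : IsScalarTower B (B ⧸ Ideal.span {s}) Q.carrier := h1.isScalarTower
  haveI : Module.Finite (B ⧸ Ideal.span {s}) Q.carrier := Module.Finite.of_restrictScalars_finite B _ _
  refine ⟨G0.cls (B ⧸ Ideal.span {s}) Q.carrier, ?_⟩
  rw [G0.cls, G0.res_mk]
  exact G0.cls_of_eq Q _ (Module.ext' _ _ fun b m => rfl) _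

/-- The subgroup of the classes with support in `s = 0`. -/
noncomputable def suppG : Submodule ℤ (G0 B) :=
  (G0.res (Ideal.Quotient.mk (Ideal.span {s})) Ideal.Quotient.mk_surjective).range.toIntSubmodule

/-- The projection. -/
noncomputable def suppP : G0 B →+ G0 B ⧸ suppG s := (Submodule.mkQ (suppG s)).toAddMonoidHom

theorem suppP_surjective : Function.Surjective (suppP s) := Submodule.mkQ_surjective _

theorem suppP_kills : Kills s (suppP s) := fun Q hQ =>
  (Submodule.Quotient.mk_eq_zero _).2 (mk_mem_range s Q hQ)

/-- Restriction of the scalars to `B`. -/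
noncomputable def locV (M : FMod (Localization.Away s)) : G0 B ⧸ suppG s :=
  letI := Module.compHom M.carrier (algebraMap B (Localization.Away s))
  latV s (suppP s) M.carrier

variable [IsNoetherianRing B]

theorem locV_add (M' M M'' : FMod (Localization.Away s))
    (i : M'.carrier →ₗ[Localization.Away s] M.carrier)
    (p : M.carrier →ₗ[Localization.Away s] M''.carrier) (hi : Function.Injective i)
    (hp : Function.Surjective p) (h : range i = ker p) :
    locV s M = locV s M' + locV s M'' := by
  letI j1 := Module.compHom M'.carrier (algebraMap B (Localization.Away s))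
  letI j2 := Module.compHom M.carrier (algebraMap B (Localization.Away s))
  letI j3 := Module.compHom M''.carrier (algebraMap B (Localization.Away s))
  haveI : IsScalarTower B (Localization.Away s) M'.carrier :=
    IsScalarTower.of_compHom _ _ _
  haveI : IsScalarTower B (Localization.Away s) M.carrier :=
    IsScalarTower.of_compHom _ _ _
  haveI : IsScalarTower B (Localization.Away s) M''.carrier :=
    IsScalarTower.of_compHom _ _ _
  have hlat := exists_lattice s M.carrier
  refine (suppP_kills s).latV_add (i.restrictScalars B) (p.restrictScalars B) hi hp ?_ hlat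
  ext x
  have := SetLike.ext_iff.1 h x
  exact this

/-- The homomorphism `G_0(B_s) → G_0(B)/G_0(B/s)`. -/
noncomputable def locH : G0 (Localization.Away s) →+ G0 B ⧸ suppG s :=
  G0.lift (locV s) (locV_add s)

omit [IsNoetherianRing B] in
theorem latV_congr {Γ : Type v} [AddCommGroup Γ] (Φ : G0 B →+ Γ) (W : Type u) [AddCommGroup W]
    (i1 i2 : Module B W) (h : i1 = i2) : @latV B _ Γ _ s Φ W _ i1 = @latV B _ Γ _ s Φ W _ i2 := by
  subst h
  rfl

theorem suppP_eq (M : FMod B) : latV s (suppP s) (Localization.Away s ⊗[B] M.carrier) =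
    suppP s (G0.mk M) := by
  let f : M.carrier →ₗ[B] Localization.Away s ⊗[B] M.carrier :=
    TensorProduct.mk B (Localization.Away s) M.carrier 1
  haveI : IsLocalizedModule (Submonoid.powers s) f :=
    (isLocalizedModule_iff_isBaseChange (Submonoid.powers s) (Localization.Away s) f).2
      (TensorProduct.isBaseChange B M.carrier (Localization.Away s))
  haveI : IsNoetherian B M.carrier := isNoetherian_of_isNoetherianRing_of_finite B M.carrier
  have h1 : G0.mk M = G0.cls B (ker f) + G0.cls B (range f) :=
    G0.cls_exact (ker f).subtype f.rangeRestrict (ker f).injective_subtype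
      f.surjective_rangeRestrict (by rw [Submodule.range_subtype, LinearMap.ker_rangeRestrict])
  obtain ⟨n, hn⟩ := exists_pow_killed (s := s) (ker f) (IsNoetherian.noetherian _) (by
    intro q hq
    obtain ⟨c, hc⟩ := (IsLocalizedModule.eq_zero_iff (Submonoid.powers s) f).1 hq
    obtain ⟨n, hn⟩ := c.2
    refine ⟨n, ?_⟩
    rw [← hc]
    change (fun x => s ^ x) n • q = (c : B) • q
    rw [hn])
  have h2 : suppP s (G0.cls B (ker f)) = 0 :=
    (suppP_kills s).pow n (ker f) (fun q => Subtype.ext (hn q.1 q.2))
  have hs : ∀ x : Localization.Away s ⊗[B] M.carrier, ∃ n : ℕ,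
      s ^ n • x ∈ range (range f).subtype := by
    intro x
    obtain ⟨⟨m, c⟩, hx⟩ := IsLocalizedModule.surj (Submonoid.powers s) f x
    obtain ⟨n, hn⟩ := c.2
    refine ⟨n, ⟨⟨f m, ⟨m, rfl⟩⟩, ?_⟩⟩
    change f m = (fun x => s ^ x) n • x
    rw [hn]
    exact hx.symm
  have h3 := Kills.latV_of_injective (W := Localization.Away s ⊗[B] M.carrier) (N := range f)
    (suppP_kills s) (range f).subtype (range f).injective_subtype hs
  rw [h1, map_add, h2, zero_add]
  exact h3

theorem locH_bc (x : G0 B) : locH s (G0.bc B (Localization.Away s) x) = suppP s x := by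
  have key : (locH s).comp (G0.bc B (Localization.Away s)) = suppP s := by
    refine G0.hom_ext fun M => ?_
    rw [AddMonoidHom.comp_apply, G0.bc_mk]
    refine (G0.lift_mk (locV s) (locV_add s) _).trans ?_
    refine Eq.trans ?_ (suppP_eq s M)
    exact latV_congr s (suppP s) (Localization.Away s ⊗[B] M.carrier) _ _
      (Module.ext' _ _ fun b m => algebraMap_smul (Localization.Away s) b m)
  exact DFunLike.congr_fun key x

/-- Finite generation from the closed and the open part. -/
theorem fg_of_closed_open (h1 : AddGroup.FG (G0 (B ⧸ Ideal.span {s})))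
    (h2 : AddGroup.FG (G0 (Localization.Away s))) : AddGroup.FG (G0 B) := by
  rw [← Module.Finite.iff_addGroup_fg] at h1 h2 ⊢
  have hN : Module.Finite ℤ (suppG s) := by
    let φ : G0 (B ⧸ Ideal.span {s}) →ₗ[ℤ] G0 B :=
      (G0.res (Ideal.Quotient.mk (Ideal.span {s})) Ideal.Quotient.mk_surjective).toIntLinearMap
    have h3 : suppG s = range φ := by
      ext x
      exact Iff.rfl
    rw [h3]
    infer_instance
  have hQ : Module.Finite ℤ (G0 B ⧸ suppG s) := by
    refine Module.Finite.of_surjective (locH s).toIntLinearMap fun y => ?_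
    obtain ⟨x, rfl⟩ := suppP_surjective s y
    exact ⟨_, locH_bc s x⟩
  exact Module.Finite.of_submodule_quotient (suppG s)

end Pool.Agent.GZT
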