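import Pool.Agent.GZT.Sys

/-!
# Finitely generated rings are defined by equations with at most three terms

Every finitely generated commutative ring has finitely many generators such that all relations
between them follow from relations which are sums of at most three square free monomials of degree
at most two.
-/

universe u v w

namespace Pool.Agent.GZT

open MvPolynomial

variable {A : Type v} [CommRing A]

/-- There is a presentation of the required form such that the elements of `R` are among the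
generators. -/
def Good (A : Type v) [CommRing A] (R : Set A) : Prop :=
  ∃ (V L : Type) (_ : Finite V) (_ : Finite L) (a : V → A) (S : L → Finset (Finset V)),
    (∀ l, (S l).card ≤ 3) ∧ (∀ l, ∀ s ∈ S l, s.card ≤ 2) ∧ IsPres ℤ S a ∧ R ⊆ Set.range a

theorem Good.mono {R R' : Set A} (h : Good A R) (hR : R' ⊆ R) : Good A R' := by
  obtain ⟨V, L, hV, hL, a, S, h1, h2, h3, h4⟩ := h
  exact ⟨V, L, hV, hL, a, S, h1, h2, h3, hR.trans h4⟩

/-- A new generator `-c`. -/
theorem Good.neg {R : Set A} (h : Good A R) {c : A} (hc : c ∈ R) : Good A (insert (-c) R) := by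
  obtain ⟨V, L, hV, hL, a, S, h1, h2, h3, h4⟩ := h
  obtain ⟨v, hv⟩ := h4 hc
  refine ⟨Option V, Option L, inferInstance, inferInstance, _, _,
    card_adjS h1 (M := {{v}}) (by simp), card_of_mem_adjS h2 (by simp),
    h3.adj {{v}} (-c) (by simp [hv]), ?_⟩
  rintro x (rfl | hx)
  · exact ⟨none, rfl⟩
  · obtain ⟨w, hw⟩ := h4 hx
    exact ⟨some w, hw⟩

/-- A new generator `-1`. -/
theorem Good.neg_one {R : Set A} (h : Good A R) : Good A (insert (-1) R) := by
  obtain ⟨V, L, hV, hL, a, S, h1, h2, h3, h4⟩ := h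
  refine ⟨Option V, Option L, inferInstance, inferInstance, _, _,
    card_adjS h1 (M := {∅}) (by simp), card_of_mem_adjS h2 (by simp),
    h3.adj {∅} (-1) (by simp), ?_⟩
  rintro x (rfl | hx)
  · exact ⟨none, rfl⟩
  · obtain ⟨w, hw⟩ := h4 hx
    exact ⟨some w, hw⟩

/-- Two elements of `R` are generators with different indices. -/
theorem Good.pair {R : Set A} (h : Good A R) {c d : A} (hc : c ∈ R) (hd : d ∈ R) :
    ∃ (V L : Type) (_ : Finite V) (_ : Finite L) (a : V → A) (S : L → Finset (Finset V)),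
      (∀ l, (S l).card ≤ 3) ∧ (∀ l, ∀ s ∈ S l, s.card ≤ 2) ∧ IsPres ℤ S a ∧ R ⊆ Set.range a ∧
      ∃ v w, v ≠ w ∧ a v = c ∧ a w = d := by
  obtain ⟨V, L, hV, hL, a, S, h1, h2, h3, h4⟩ := h
  obtain ⟨v, hv⟩ := h4 hc
  obtain ⟨w, hw⟩ := h4 hd
  refine ⟨Option (Option V), Option (Option L), inferInstance, inferInstance, _, _,
    card_adjS (card_adjS h1 (M := {{v}}) (by simp)) (M := {{none}}) (by simp),
    card_of_mem_adjS (card_of_mem_adjS h2 (by simp)) (by simp),
    (h3.adj {{v}} (-c) (by simp [hv])).adj {{none}} c (by simp), ?_, none, some (some w),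
    by simp, rfl, hw⟩
  intro x hx
  obtain ⟨w, hw⟩ := h4 hx
  exact ⟨some (some w), hw⟩

/-- A new generator `-(c + d)`. -/
theorem Good.neg_add {R : Set A} (h : Good A R) {c d : A} (hc : c ∈ R) (hd : d ∈ R) :
    Good A (insert (-(c + d)) R) := by
  obtain ⟨V, L, hV, hL, a, S, h1, h2, h3, h4, v, w, hvw, hv, hw⟩ := h.pair hc hd
  classical
  refine ⟨Option V, Option L, inferInstance, inferInstance, _, _,
    card_adjS h1 (M := {{v}, {w}}) (Finset.card_le_two), card_of_mem_adjS h2 (by simp),
    h3.adj {{v}, {w}} (-(c + d)) ?_, ?_⟩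
  · rw [Finset.sum_pair (by simpa using hvw), Finset.prod_singleton, Finset.prod_singleton, hv, hw]
    ring
  · rintro x (rfl | hx)
    · exact ⟨none, rfl⟩
    · obtain ⟨w, hw⟩ := h4 hx
      exact ⟨some w, hw⟩

/-- A new generator `-(c * d)`. -/
theorem Good.neg_mul {R : Set A} (h : Good A R) {c d : A} (hc : c ∈ R) (hd : d ∈ R) :
    Good A (insert (-(c * d)) R) := by
  obtain ⟨V, L, hV, hL, a, S, h1, h2, h3, h4, v, w, hvw, hv, hw⟩ := h.pair hc hd
  classical
  refine ⟨Option V, Option L, inferInstance, inferInstance, _, _,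
    card_adjS h1 (M := {{v, w}}) (by simp), card_of_mem_adjS h2 (by
      intro s hs
      rw [Finset.mem_singleton] at hs
      subst hs
      exact Finset.card_le_two),
    h3.adj {{v, w}} (-(c * d)) ?_, ?_⟩
  · rw [Finset.sum_singleton, Finset.prod_pair hvw, hv, hw]
    ring
  · rintro x (rfl | hx)
    · exact ⟨none, rfl⟩
    · obtain ⟨w, hw⟩ := h4 hx
      exact ⟨some w, hw⟩

/-- The element can be added to every good set which contains `R₀`. -/
def Adj (R₀ : Set A) (c : A) : Prop := ∀ R : Set A, R₀ ⊆ R → Good A R → Good A (insert c R)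

variable {R₀ : Set A}

theorem Adj.of_mem {c : A} (h : c ∈ R₀) : Adj R₀ c := fun R hR h' => by
  rwa [Set.insert_eq_of_mem (hR h)]

theorem Adj.neg {c : A} (h : Adj R₀ c) : Adj R₀ (-c) := fun R h0 hR =>
  ((h R h0 hR).neg (Set.mem_insert _ _)).mono (Set.insert_subset_insert (Set.subset_insert _ _))

theorem Adj.neg_one : Adj R₀ (-1 : A) := fun _ _ hR => hR.neg_one

theorem Adj.one : Adj R₀ (1 : A) := by
  have h := (Adj.neg_one (R₀ := R₀)).neg
  rwa [neg_neg] at h

theorem Adj.add {c d : A} (hc : Adj R₀ c) (hd : Adj R₀ d) : Adj R₀ (c + d) := by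
  have h : Adj R₀ (-(c + d)) := fun R h0 hR =>
    ((hd _ (h0.trans (Set.subset_insert _ _)) (hc R h0 hR)).neg_add (c := c) (d := d)
      (Set.mem_insert_of_mem _ (Set.mem_insert _ _)) (Set.mem_insert _ _)).mono
        (Set.insert_subset_insert ((Set.subset_insert _ _).trans (Set.subset_insert _ _)))
  have h' := h.neg
  rwa [neg_neg] at h'

theorem Adj.mul {c d : A} (hc : Adj R₀ c) (hd : Adj R₀ d) : Adj R₀ (c * d) := by
  have h : Adj R₀ (-(c * d)) := fun R h0 hR =>
    ((hd _ (h0.trans (Set.subset_insert _ _)) (hc R h0 hR)).neg_mul (c := c) (d := d)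
      (Set.mem_insert_of_mem _ (Set.mem_insert _ _)) (Set.mem_insert _ _)).mono
        (Set.insert_subset_insert ((Set.subset_insert _ _).trans (Set.subset_insert _ _)))
  have h' := h.neg
  rwa [neg_neg] at h'

theorem Adj.zero : Adj R₀ (0 : A) := by
  have h := (Adj.one (R₀ := R₀)).add Adj.neg_one
  rwa [add_neg_cancel] at h

theorem Adj.intCast (n : ℤ) : Adj R₀ (n : A) := by
  induction n using Int.induction_on with
  | zero => simpa using Adj.zero (R₀ := R₀)
  | succ i ih =>
    have := ih.add Adj.one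
    simpa using this
  | pred i ih =>
    have := ih.add Adj.neg_one
    simpa [sub_eq_add_neg] using this

theorem Adj.mvPolynomial {σ : Type v} (p : MvPolynomial σ ℤ) : Adj (Set.range X) p := by
  induction p using MvPolynomial.induction_on with
  | C n => simpa using Adj.intCast (R₀ := Set.range (X : σ → MvPolynomial σ ℤ)) n
  | add p q hp hq => exact hp.add hq
  | mul_X p i hp => exact hp.mul (Adj.of_mem ⟨i, rfl⟩)

theorem good_union {R : Set A} (hR : R.Finite) (hadj : ∀ c ∈ R, Adj R₀ c) (h0 : Good A R₀) :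
    Good A (R ∪ R₀) := by
  induction R, hR using Set.Finite.induction_on with
  | empty => rwa [Set.empty_union]
  | insert _ _ ih =>
    rw [Set.insert_union]
    exact hadj _ (Set.mem_insert _ _) _ Set.subset_union_right
      (ih fun c hc => hadj c (Set.mem_insert_of_mem _ hc))

/-- The generators of the polynomial ring. -/
theorem good_mvPolynomial (n : ℕ) :
    Good (MvPolynomial (ULift.{u} (Fin n)) ℤ)
      (Set.range (X : ULift.{u} (Fin n) → MvPolynomial (ULift.{u} (Fin n)) ℤ)) := by
  refine ⟨Fin n, Empty, inferInstance, inferInstance, fun i => X (ULift.up i),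
    fun l => l.elim, fun l => l.elim, fun l => l.elim, ⟨fun l => l.elim, ?_, ?_⟩, ?_⟩
  · rw [eq_top_iff]
    intro p _
    induction p using MvPolynomial.induction_on with
    | C m => simp
    | add p q hp hq => exact Subalgebra.add_mem _ (hp trivial) (hq trivial)
    | mul_X p i hp =>
      exact Subalgebra.mul_mem _ (hp trivial) (Algebra.subset_adjoin ⟨i.down, rfl⟩)
  · exact ⟨aeval fun i => Sys.x ℤ _ i.down, fun v => aeval_X _ _⟩
  · rintro _ ⟨i, rfl⟩
    exact ⟨i.down, rfl⟩

theorem slp_aux {A₀ : Type u} [CommRing A₀] [IsNoetherianRing A₀] {R₀ : Set A₀}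
    (h0 : Good A₀ R₀) (hadj : ∀ c, Adj R₀ c) (A : Type u) [CommRing A] (p : A₀ →+* A)
    (hp : Function.Surjective p) :
    ∃ (V L : Type) (_ : Finite V) (_ : Finite L) (a : V → A) (S : L → Finset (Finset V)),
      (∀ l, (S l).card ≤ 3) ∧ (∀ l, ∀ s ∈ S l, s.card ≤ 2) ∧ IsPres ℤ S a := by
  obtain ⟨r, g, hg⟩ := Submodule.fg_iff_exists_fin_generating_family.1
    (IsNoetherian.noetherian (RingHom.ker p.toIntAlgHom))
  obtain ⟨V, L, hV, hL, a, S, h1, h2, h3, h4⟩ := good_union (R := Set.range g)
    (Set.finite_range g) (fun c _ => hadj c) h0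
  have h5 : ∀ j, ∃ v, a v = g j := fun j => h4 (Or.inl ⟨j, rfl⟩)
  choose w hw using h5
  refine ⟨V, L ⊕ Fin r, hV, inferInstance, _, _, ?_, ?_, h3.quot w p.toIntAlgHom hp ?_⟩
  · rintro (l | j)
    · exact h1 l
    · change ({{w j}} : Finset (Finset V)).card ≤ 3
      simp
  · rintro (l | j)
    · exact h2 l
    · change ∀ s ∈ ({{w j}} : Finset (Finset V)), s.card ≤ 2
      simp
  · rw [← hg]
    change Submodule.span A₀ _ = Submodule.span A₀ _
    congr 2
    ext j
    exact (hw j).symm

/-- Every finitely generated ring is defined by equations with at most three terms, which are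
square free monomials of degree at most two with coefficient one. -/
theorem slp (A : Type u) [CommRing A] [hA : Algebra.FiniteType ℤ A] :
    ∃ (V L : Type) (_ : Finite V) (_ : Finite L) (a : V → A) (S : L → Finset (Finset V)),
      (∀ l, (S l).card ≤ 3) ∧ (∀ l, ∀ s ∈ S l, s.card ≤ 2) ∧ IsPres ℤ S a := by
  obtain ⟨n, f, hf⟩ := Algebra.FiniteType.iff_quotient_mvPolynomial''.1 hA
  let e : MvPolynomial (ULift.{u} (Fin n)) ℤ ≃ₐ[ℤ] MvPolynomial (Fin n) ℤ :=
    renameEquiv ℤ Equiv.ulift
  exact slp_aux (good_mvPolynomial n) (fun c => Adj.mvPolynomial c) A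
    ((f : MvPolynomial (Fin n) ℤ →+* A).comp
      (e : MvPolynomial (ULift.{u} (Fin n)) ℤ →+* MvPolynomial (Fin n) ℤ)) (hf.comp e.surjective)

end Pool.Agent.GZT
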