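import Pool.Agent.GZT.Def
import Mathlib

/-!
# The stratification of a universal algebra
-/

universe u

namespace Pool.Agent.GZT

open Pool.Agent.GZero MvPolynomial

/-- Solutions are preserved by ring homomorphisms. -/
theorem Sat.map {V : Type} [Fintype V] {S : Set ((V → ℕ) × (V → ℕ))} {S0 : Set (V → ℕ)}
    {U Z U' Z' : Set V} {C D : Type u} [CommRing C] [CommRing D] {φ : V → C}
    (h : Sat S S0 U Z φ) (f : C →+* D) (hU : ∀ v ∈ U', v ∈ U ∨ IsUnit (f (φ v)))
    (hZ : ∀ v ∈ Z', v ∈ Z ∨ f (φ v) = 0) : Sat S S0 U' Z' fun w => f (φ w) where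
  two p hp := by
    have h1 := congrArg f (h.two p hp)
    simpa only [map_add, map_prod, map_pow, map_zero] using h1
  one m hm := by
    have h1 := congrArg f (h.one m hm)
    simpa only [map_prod, map_pow, map_zero] using h1
  unit v hv := by
    rcases hU v hv with h1 | h1
    · exact (h.unit v h1).map f
    · exact h1
  zero v hv := by
    rcases hZ v hv with h1 | h1
    · rw [h.zero v h1, map_zero]
    · exact h1

theorem Sat.weaken {V : Type} [Fintype V] {S : Set ((V → ℕ) × (V → ℕ))} {S0 : Set (V → ℕ)}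
    {U Z U' Z' : Set V} {C : Type u} [CommRing C] {φ : V → C}
    (h : Sat S S0 U Z φ) (hU : U' ⊆ U) (hZ : Z' ⊆ Z) : Sat S S0 U' Z' φ where
  two := h.two
  one := h.one
  unit v hv := h.unit v (hU hv)
  zero v hv := h.zero v (hZ hv)

theorem Univ.quotient {k : Type u} [CommRing k] {V : Type} [Fintype V]
    {S : Set ((V → ℕ) × (V → ℕ))} {S0 : Set (V → ℕ)} {U Z : Set V} {C : Type u} [CommRing C]
    [Algebra k C] {φ : V → C} (h : Univ k S S0 U Z C φ) (v : V) :
    Univ k S S0 U (insert v Z) (C ⧸ Ideal.span {φ v})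
      (fun w => Ideal.Quotient.mk (Ideal.span {φ v}) (φ w)) where
  sat := by
    refine h.sat.map (Ideal.Quotient.mk (Ideal.span {φ v})) (fun w hw => Or.inl hw)
      fun w hw => ?_
    rcases Set.mem_insert_iff.1 hw with rfl | hw
    · exact Or.inr (Ideal.Quotient.eq_zero_iff_mem.2 (Ideal.mem_span_singleton_self _))
    · exact Or.inl hw
  lift D _ _ ψ hψ := by
    obtain ⟨g, hg⟩ := h.lift D ψ (hψ.weaken subset_rfl (Set.subset_insert v Z))
    have h1 : ∀ a : C, a ∈ Ideal.span {φ v} → g a = 0 := by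
      intro a ha
      obtain ⟨b, rfl⟩ := Ideal.mem_span_singleton'.1 ha
      rw [map_mul, hg v, hψ.zero v (Set.mem_insert v Z), mul_zero]
    exact ⟨Ideal.Quotient.liftₐ (Ideal.span {φ v}) g h1, fun w => hg w⟩
  ext D _ _ g g' hgg := by
    have h1 := h.ext D (g.comp (Ideal.Quotient.mkₐ k (Ideal.span {φ v})))
      (g'.comp (Ideal.Quotient.mkₐ k (Ideal.span {φ v}))) fun w => hgg w
    exact Ideal.Quotient.algHom_ext k h1

theorem Univ.localization {k : Type u} [CommRing k] {V : Type} [Fintype V]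
    {S : Set ((V → ℕ) × (V → ℕ))} {S0 : Set (V → ℕ)} {U Z : Set V} {C : Type u} [CommRing C]
    [Algebra k C] {φ : V → C} (h : Univ k S S0 U Z C φ) (v : V) :
    Univ k S S0 (insert v U) Z (Localization.Away (φ v))
      (fun w => algebraMap C (Localization.Away (φ v)) (φ w)) where
  sat := by
    refine h.sat.map (algebraMap C (Localization.Away (φ v))) (fun w hw => ?_)
      fun w hw => Or.inl hw
    rcases Set.mem_insert_iff.1 hw with rfl | hw
    · exact Or.inr (IsLocalization.Away.algebraMap_isUnit _)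
    · exact Or.inl hw
  lift D _ _ ψ hψ := by
    obtain ⟨g, hg⟩ := h.lift D ψ (hψ.weaken (Set.subset_insert v U) subset_rfl)
    have h1 : ∀ y : Submonoid.powers (φ v), IsUnit (g y) := by
      rintro ⟨_, n, rfl⟩
      change IsUnit (g (φ v ^ n))
      rw [map_pow, hg v]
      exact (hψ.unit v (Set.mem_insert v U)).pow n
    refine ⟨IsLocalization.liftAlgHom (M := Submonoid.powers (φ v)) (f := g) h1, fun w => ?_⟩
    rw [IsLocalization.liftAlgHom_apply, IsLocalization.lift_eq]
    exact hg w
  ext D _ _ g g' hgg := by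
    have h1 := h.ext D (g.comp (IsScalarTower.toAlgHom k C (Localization.Away (φ v))))
      (g'.comp (IsScalarTower.toAlgHom k C (Localization.Away (φ v)))) fun w => hgg w
    have h2 : (g : Localization.Away (φ v) →+* D) = g' := by
      refine IsLocalization.ringHom_ext (Submonoid.powers (φ v)) (RingHom.ext fun a => ?_)
      exact congrArg (fun f : C →ₐ[k] D => f a) h1
    exact AlgHom.coe_ringHom_injective h2

theorem strat (k : Type u) [CommRing k] [IsNoetherianRing k] {V : Type} [Fintype V]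
    (S : Set ((V → ℕ) × (V → ℕ))) (S0 : Set (V → ℕ))
    (hclosed : ∀ (B : Type u) [CommRing B] [IsNoetherianRing B] (s : B),
      AddGroup.FG (G0 (B ⧸ Ideal.span {s})) → AddGroup.FG (G0 (Localization.Away s)) →
      AddGroup.FG (G0 B))
    (hbase : ∀ (U Z : Set V) (C : Type u) [CommRing C] [Algebra k C] (φ : V → C),
      (∀ v, v ∈ U ∨ v ∈ Z) → Univ k S S0 U Z C φ → AddGroup.FG (G0 C))
    (U Z : Set V) (C : Type u) [CommRing C] [Algebra k C] [IsNoetherianRing C] (φ : V → C)
    (h : Univ k S S0 U Z C φ) : AddGroup.FG (G0 C) := by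
  classical
  obtain ⟨n, hn⟩ : ∃ n, (Finset.univ.filter fun v => ¬ (v ∈ U ∨ v ∈ Z)).card = n := ⟨_, rfl⟩
  induction n using Nat.strong_induction_on generalizing U Z C with
  | _ n ih =>
    by_cases hv : ∀ v, v ∈ U ∨ v ∈ Z
    · exact hbase U Z C φ hv h
    · push Not at hv
      obtain ⟨v, hv1, hv2⟩ := hv
      have hlt : ∀ U' Z' : Set V, U ⊆ U' → Z ⊆ Z' → (v ∈ U' ∨ v ∈ Z') →
          (Finset.univ.filter fun v => ¬ (v ∈ U' ∨ v ∈ Z')).card < n := by
        intro U' Z' hU hZ hv
        rw [← hn]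
        refine Finset.card_lt_card (Finset.ssubset_iff_subset_ne.2 ⟨fun w hw => ?_, fun he => ?_⟩)
        · rw [Finset.mem_filter] at hw ⊢
          exact ⟨hw.1, fun h1 => hw.2 (h1.imp (fun h2 => hU h2) fun h2 => hZ h2)⟩
        · have h1 : v ∈ Finset.univ.filter fun v => ¬ (v ∈ U ∨ v ∈ Z) := by
            rw [Finset.mem_filter]
            exact ⟨Finset.mem_univ v, fun h2 => h2.elim hv1 hv2⟩
          rw [← he, Finset.mem_filter] at h1
          exact h1.2 hv
      refine hclosed C (φ v) ?_ ?_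
      · exact ih _ (hlt U (insert v Z) subset_rfl (Set.subset_insert v Z)
          (Or.inr (Set.mem_insert v Z))) U (insert v Z) (C ⧸ Ideal.span {φ v}) _
          (h.quotient v) rfl
      · exact ih _ (hlt (insert v U) Z (Set.subset_insert v U) subset_rfl
          (Or.inl (Set.mem_insert v U))) (insert v U) Z (Localization.Away (φ v)) _
          (h.localization v) rfl

end Pool.Agent.GZT
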