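import Pool.Agent.GZT.Def
import Pool.Agent.GZT.TorA

/-!
# Systems in which all variables are units or zero: the universal algebra is a torus
over a finite algebra
-/

set_option autoImplicit false

universe u

namespace Pool.Agent.GZT

open MvPolynomial

namespace TorB

open Multiplicative

section mon
variable {ι : Type} [Fintype ι]

/-- monomials with integral exponents -/
def mon {G : Type*} [CommGroup G] (x : ι → G) : Multiplicative (ι → ℤ) →* G where
  toFun α := ∏ i, x i ^ (toAdd α i)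
  map_one' := by simp
  map_mul' a b := by
    rw [← Finset.prod_mul_distrib]
    refine Finset.prod_congr rfl fun i _ => ?_
    rw [toAdd_mul, Pi.add_apply, zpow_add]

variable [DecidableEq ι]

/-- the basis vectors -/
def ev (i : ι) : Multiplicative (ι → ℤ) := ofAdd (Pi.single i 1)

lemma mon_ev {G : Type*} [CommGroup G] (x : ι → G) (i : ι) : mon x (ev i) = x i := by
  show ∏ j, x j ^ ((Pi.single i (1 : ℤ) : ι → ℤ) j) = x i
  rw [Finset.prod_eq_single i]
  · simp
  · intro j _ hj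
    simp [Pi.single_eq_of_ne hj]
  · simp

lemma decomp (α : Multiplicative (ι → ℤ)) : α = ∏ i, ev i ^ (toAdd α i) := by
  apply toAdd.injective
  rw [toAdd_prod]
  funext j
  rw [Finset.sum_apply, Finset.sum_eq_single j]
  · simp [ev]
  · intro i _ hi
    simp [ev, Pi.single_eq_of_ne (Ne.symm hi)]
  · simp

lemma decomp_nat (p : ι → ℕ) : ofAdd (fun i => (p i : ℤ)) = ∏ i, ev i ^ (p i) := by
  rw [decomp (ofAdd (fun i => (p i : ℤ)))]
  refine Finset.prod_congr rfl fun i _ => ?_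
  rw [toAdd_ofAdd, zpow_natCast]

lemma hom_ext {M : Type*} [CommMonoid M] {f g : Multiplicative (ι → ℤ) →* M}
    (h : ∀ i, f (ev i) = g (ev i)) : f = g := by
  have h1 : ∀ α, f.toHomUnits α = g.toHomUnits α := by
    intro α
    rw [decomp α, map_prod, map_prod]
    refine Finset.prod_congr rfl fun i _ => ?_
    rw [map_zpow, map_zpow]
    congr 1
    exact Units.ext (h i)
  exact MonoidHom.ext fun α => congrArg Units.val (h1 α)

lemma map_nat {M : Type*} [CommMonoid M] (f : Multiplicative (ι → ℤ) →* M) (p : ι → ℕ) :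
    f (ofAdd (fun i => (p i : ℤ))) = ∏ i, f (ev i) ^ (p i) := by
  rw [decomp_nat, map_prod]
  refine Finset.prod_congr rfl fun i _ => ?_
  rw [map_pow]

end mon

section fin
variable {V : Type} [Fintype V] {m : ℕ} {C : Type u} [CommRing C]

/-- the values of the character in degree `0` -/
def T0 (χ : Multiplicative (V → ℤ) →* Cˣ) (deg : (V → ℤ) →+ (Fin m → ℤ)) : Submonoid C where
  carrier := {c | ∃ α, deg α = 0 ∧ c = (χ (ofAdd α) : C)}
  one_mem' := ⟨0, map_zero deg, by simp⟩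
  mul_mem' := by
    rintro a b ⟨α, hα, rfl⟩ ⟨β, hβ, rfl⟩
    exact ⟨α + β, by rw [map_add, hα, hβ, add_zero], by rw [ofAdd_add, map_mul, Units.val_mul]⟩

lemma T0_finite (χ : Multiplicative (V → ℤ) →* Cˣ) (deg : (V → ℤ) →+ (Fin m → ℤ))
    (h : ∀ α, deg α = 0 → ∃ n : ℕ, 0 < n ∧ (χ (ofAdd (n • α)) = 1 ∨ χ (ofAdd (n • α)) = -1)) :
    (T0 χ deg : Set C).Finite := by
  let f : (V → ℤ) →ₗ[ℤ] Additive Cˣ := (AddMonoidHom.mk' (fun α => Additive.ofMul (χ (ofAdd α)))
    (fun a b => by rw [ofAdd_add, map_mul]; rfl)).toIntLinearMap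
  let K : Submodule ℤ (V → ℤ) := LinearMap.ker deg.toIntLinearMap
  have hfg : (K.map f).FG := (IsNoetherian.noetherian K).map f
  have : Module.Finite ℤ (K.map f) := Module.Finite.iff_fg.2 hfg
  have htor : Module.IsTorsion ℤ (K.map f) := by
    rintro ⟨_, α, hα, rfl⟩
    obtain ⟨n, hn, h1⟩ := h α hα
    refine ⟨⟨((2 * n : ℕ) : ℤ), ?_⟩, ?_⟩
    · rw [mem_nonZeroDivisors_iff_ne_zero]
      exact_mod_cast (by omega : 2 * n ≠ 0)
    · apply Subtype.ext
      show (((2 * n : ℕ) : ℤ)) • f α = 0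
      have h2 : χ (ofAdd (n • α)) ^ 2 = 1 := by
        rcases h1 with h1 | h1 <;> rw [h1] <;> simp
      have h3 : f ((2 * n) • α) = 0 := by
        show Additive.ofMul (χ (ofAdd ((2 * n) • α))) = 0
        rw [mul_smul, ofAdd_nsmul, map_pow, h2]
        rfl
      rw [natCast_zsmul, ← map_nsmul]
      exact h3
  have := Module.finite_of_fg_torsion _ htor
  have h4 : (T0 χ deg : Set C) ⊆
      Set.range fun r : K.map f => (((r : Additive Cˣ).toMul : Cˣ) : C) := by
    rintro _ ⟨α, hα, rfl⟩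
    exact ⟨⟨f α, α, hα, rfl⟩, rfl⟩
  exact (Set.finite_range _).subset h4

/-- the algebra of degree `0` -/
def Lam (k : Type u) [CommRing k] [Algebra k C] (χ : Multiplicative (V → ℤ) →* Cˣ)
    (deg : (V → ℤ) →+ (Fin m → ℤ)) : Subalgebra k C :=
  Algebra.adjoin k (T0 χ deg : Set C)

lemma Lam_finite (k : Type u) [CommRing k] [Algebra k C] (χ : Multiplicative (V → ℤ) →* Cˣ)
    (deg : (V → ℤ) →+ (Fin m → ℤ))
    (h : ∀ α, deg α = 0 → ∃ n : ℕ, 0 < n ∧ (χ (ofAdd (n • α)) = 1 ∨ χ (ofAdd (n • α)) = -1)) :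
    Module.Finite k (Lam k χ deg) := by
  have h1 : Subalgebra.toSubmodule (Lam k χ deg) = Submodule.span k (T0 χ deg : Set C) := by
    rw [Lam, Algebra.adjoin_eq_span, Submonoid.closure_eq]
  have h2 : (Subalgebra.toSubmodule (Lam k χ deg)).FG := by
    rw [h1]
    exact Submodule.fg_span (T0_finite χ deg h)
  exact Module.Finite.iff_fg.2 h2

omit [Fintype V] in
lemma mem_Lam (k : Type u) [CommRing k] [Algebra k C] (χ : Multiplicative (V → ℤ) →* Cˣ)
    (deg : (V → ℤ) →+ (Fin m → ℤ)) {α : Multiplicative (V → ℤ)} (hα : deg (toAdd α) = 0) :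
    (χ α : C) ∈ Lam k χ deg :=
  Algebra.subset_adjoin ⟨toAdd α, hα, rfl⟩

/-- the part of degree `0` -/
def yL (k : Type u) [CommRing k] [Algebra k C] (χ : Multiplicative (V → ℤ) →* Cˣ)
    (deg : (V → ℤ) →+ (Fin m → ℤ)) (s : (Fin m → ℤ) →+ (V → ℤ)) (hds : ∀ a, deg (s a) = a) :
    Multiplicative (V → ℤ) →* Lam k χ deg where
  toFun α := ⟨(χ (ofAdd (toAdd α - s (deg (toAdd α)))) : C), mem_Lam k χ deg (by
    rw [toAdd_ofAdd, map_sub, hds, sub_self])⟩
  map_one' := by
    apply Subtype.ext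
    simp
  map_mul' a b := by
    apply Subtype.ext
    show (χ (ofAdd (toAdd (a * b) - s (deg (toAdd (a * b))))) : C) =
      (χ (ofAdd (toAdd a - s (deg (toAdd a)))) : C) * (χ (ofAdd (toAdd b - s (deg (toAdd b)))) : C)
    rw [← Units.val_mul, ← map_mul, ← ofAdd_add, toAdd_mul, map_add, map_add]
    congr 3
    abel

end fin

section loc
variable {m : ℕ} (Λ : Type u) [CommRing Λ]

/-- Laurent polynomials -/
abbrev DD (m : ℕ) (Λ : Type u) [CommRing Λ] : Type u :=
  Localization.Away (∏ i, X i : MvPolynomial (Fin m) Λ)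

lemma isUnit_X (i : Fin m) : IsUnit (algebraMap (MvPolynomial (Fin m) Λ) (DD m Λ) (X i)) := by
  have h1 : IsUnit (algebraMap (MvPolynomial (Fin m) Λ) (DD m Λ) (∏ i, X i)) :=
    IsLocalization.Away.algebraMap_isUnit _
  exact isUnit_of_dvd_unit (map_dvd _ (Finset.dvd_prod_of_mem _ (Finset.mem_univ i))) h1

/-- the monomials -/
noncomputable def TM (m : ℕ) : Multiplicative (Fin m → ℤ) →* (DD m Λ)ˣ :=
  mon fun i => (isUnit_X Λ i).unit

lemma TM_ev (i : Fin m) :
    ((TM Λ m (ev i) : (DD m Λ)ˣ) : DD m Λ) =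
      algebraMap (MvPolynomial (Fin m) Λ) (DD m Λ) (X i) := by
  rw [TM, mon_ev]
  rfl

end loc

section psi
variable {V : Type} [Fintype V] {m : ℕ} {C : Type u} [CommRing C] (k : Type u) [CommRing k]
  [Algebra k C] (χ : Multiplicative (V → ℤ) →* Cˣ) (deg : (V → ℤ) →+ (Fin m → ℤ))
  (s : (Fin m → ℤ) →+ (V → ℤ)) (hds : ∀ a, deg (s a) = a)

/-- constants -/
noncomputable def cst (Λ : Type u) [CommRing Λ] (m : ℕ) : Λ →+* DD m Λ :=
  (algebraMap (MvPolynomial (Fin m) Λ) (DD m Λ)).comp MvPolynomial.C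

lemma cst_apply (Λ : Type u) [CommRing Λ] (m : ℕ) (c : Λ) : cst Λ m c =
    algebraMap (MvPolynomial (Fin m) Λ) (DD m Λ) (MvPolynomial.C c) := rfl

/-- the universal character -/
noncomputable def Psi : Multiplicative (V → ℤ) →* DD m (Lam k χ deg) :=
  ((cst (Lam k χ deg) m : Lam k χ deg →* DD m (Lam k χ deg)).comp (yL k χ deg s hds)) *
    ((Units.coeHom _).comp ((TM (Lam k χ deg) m).comp (AddMonoidHom.toMultiplicative deg)))

omit [Fintype V] in
lemma Psi_apply (α : Multiplicative (V → ℤ)) : Psi k χ deg s hds α =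
    cst (Lam k χ deg) m (yL k χ deg s hds α) *
      ((TM (Lam k χ deg) m (ofAdd (deg (toAdd α))) : (DD m (Lam k χ deg))ˣ) :
        DD m (Lam k χ deg)) := rfl

omit [Fintype V] in
lemma yL_coe (α : Multiplicative (V → ℤ)) : ((yL k χ deg s hds α : Lam k χ deg) : C) =
    (χ (ofAdd (toAdd α - s (deg (toAdd α)))) : C) := rfl

omit [Fintype V] in
lemma Psi_zero {α : Multiplicative (V → ℤ)} (hα : deg (toAdd α) = 0) :
    Psi k χ deg s hds α = cst (Lam k χ deg) m ⟨χ α, mem_Lam k χ deg hα⟩ := by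
  rw [Psi_apply, hα, ofAdd_zero, map_one, Units.val_one, mul_one]
  congr 1
  apply Subtype.ext
  rw [yL_coe, hα, map_zero, sub_zero, ofAdd_toAdd]

omit [Fintype V] in
lemma Psi_s (i : Fin m) : Psi k χ deg s hds (ofAdd (s (Pi.single i 1))) =
    algebraMap (MvPolynomial (Fin m) (Lam k χ deg)) (DD m (Lam k χ deg)) (X i) := by
  rw [Psi_apply]
  have h1 : yL k χ deg s hds (ofAdd (s (Pi.single i 1))) = 1 := by
    apply Subtype.ext
    rw [yL_coe, toAdd_ofAdd, hds, sub_self, ofAdd_zero, map_one]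
    rfl
  rw [h1, map_one, one_mul, toAdd_ofAdd, hds]
  exact TM_ev (Lam k χ deg) i

end psi

end TorB

open TorB Multiplicative in
/-- the theorem, with the choice of the degree as a hypothesis -/
theorem torus_of
    (hdeg : ∀ {U : Type} [Finite U] (N : AddSubgroup (U → ℤ)),
      ∃ (m : ℕ) (deg : (U → ℤ) →+ (Fin m → ℤ)) (s : (Fin m → ℤ) →+ (U → ℤ)),
        (∀ a, deg (s a) = a) ∧ N ≤ deg.ker ∧ ∀ α ∈ deg.ker, ∃ n : ℕ, 0 < n ∧ n • α ∈ N)
    (k : Type u) [CommRing k] {V : Type} [Fintype V]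
    (S : Set ((V → ℕ) × (V → ℕ))) (S0 : Set (V → ℕ)) (U Z : Set V) (hUZ : ∀ v, v ∈ U ∨ v ∈ Z)
    (C : Type u) [CommRing C] [Algebra k C] [Nontrivial C] (φ : V → C)
    (h : Univ k S S0 U Z C φ) :
    ∃ (m : ℕ) (Λ : Type u) (_ : CommRing Λ) (_ : Algebra k Λ), Module.Finite k Λ ∧
      Nonempty (C ≃+* Localization.Away (∏ i, X i : MvPolynomial (Fin m) Λ)) := by
  classical
  have hZ : ∀ v, v ∉ U → φ v = 0 := fun v hv => h.sat.zero v ((hUZ v).resolve_left hv)
  have hZU : ∀ v ∈ Z, v ∉ U := by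
    intro v hv hU
    have h1 := h.sat.unit v hU
    rw [h.sat.zero v hv] at h1
    exact not_isUnit_zero h1
  obtain ⟨x, hx, hx1⟩ : ∃ x : V → Cˣ, (∀ v ∈ U, (x v : C) = φ v) ∧ ∀ v, v ∉ U → x v = 1 :=
    ⟨fun v => if hv : v ∈ U then (h.sat.unit v hv).unit else 1,
      fun v hv => by simp [hv], fun v hv => by simp [hv]⟩
  obtain ⟨χ, hχ⟩ : ∃ χ : Multiplicative (V → ℤ) →* Cˣ, ∀ v, χ (ev v) = x v := ⟨mon x, mon_ev x⟩
  obtain ⟨m, deg, s, hds, hN, htor⟩ := hdeg
    ({ carrier := {α | χ (ofAdd α) = 1 ∨ χ (ofAdd α) = -1}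
       zero_mem' := Or.inl (by rw [ofAdd_zero, map_one])
       add_mem' := by
        intro a b ha hb
        show χ (ofAdd (a + b)) = 1 ∨ χ (ofAdd (a + b)) = -1
        rw [ofAdd_add, map_mul]
        rcases ha with ha | ha <;> rcases hb with hb | hb <;> rw [ha, hb] <;> simp
       neg_mem' := by
        intro a ha
        show χ (ofAdd (-a)) = 1 ∨ χ (ofAdd (-a)) = -1
        rw [ofAdd_neg, map_inv]
        rcases ha with ha | ha <;> rw [ha] <;> simp } : AddSubgroup (V → ℤ))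
  have hN1 : ∀ α : V → ℤ, (χ (ofAdd α) = 1 ∨ χ (ofAdd α) = -1) → deg α = 0 :=
    fun α hα => hN hα
  have hfin : Module.Finite k (Lam k χ deg) := Lam_finite k χ deg (fun α hα => htor α hα)
  refine ⟨m, Lam k χ deg, inferInstance, inferInstance, hfin, ?_⟩
  have hmon : ∀ p : V → ℕ, (∀ v, v ∉ U → p v = 0) →
      ∏ v, φ v ^ p v = (χ (ofAdd fun v => (p v : ℤ)) : C) := by
    intro p hp
    rw [map_nat χ p, Units.coe_prod]
    refine Finset.prod_congr rfl fun v _ => ?_
    rw [Units.val_pow_eq_pow_val, hχ]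
    by_cases hv : v ∈ U
    · rw [hx v hv]
    · rw [hp v hv, pow_zero, pow_zero]
  have hbad : ∀ (B : Type u) [CommRing B] (w : V → B) (_ : ∀ v, v ∉ U → w v = 0) (p : V → ℕ),
      (∃ v, v ∉ U ∧ p v ≠ 0) → ∏ v, w v ^ p v = 0 := by
    rintro B _ w hw p ⟨v, hv, hpv⟩
    exact Finset.prod_eq_zero (Finset.mem_univ v) (by rw [hw v hv, zero_pow hpv])
  have hgood : ∀ p : V → ℕ, ∏ v, φ v ^ p v = 0 → ∃ v, v ∉ U ∧ p v ≠ 0 := by
    intro p hp
    by_contra hne
    push Not at hne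
    rw [hmon p hne] at hp
    exact Units.ne_zero _ hp
  obtain ⟨ψ, hψ⟩ : ∃ ψ : V → DD m (Lam k χ deg),
    ψ = fun v => if v ∈ U then Psi k χ deg s hds (ev v) else 0 := ⟨_, rfl⟩
  have hψ0 : ∀ v, v ∉ U → ψ v = 0 := fun v hv => by rw [hψ]; simp [hv]
  have hψ1 : ∀ v, v ∈ U → ψ v = Psi k χ deg s hds (ev v) := fun v hv => by rw [hψ]; simp [hv]
  have hψmon : ∀ p : V → ℕ, (∀ v, v ∉ U → p v = 0) →
      ∏ v, ψ v ^ p v = Psi k χ deg s hds (ofAdd fun v => (p v : ℤ)) := by
    intro p hp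
    rw [map_nat (Psi k χ deg s hds) p]
    refine Finset.prod_congr rfl fun v _ => ?_
    by_cases hv : v ∈ U
    · rw [hψ1 v hv]
    · rw [hp v hv, pow_zero, pow_zero]
  have hΨ1 : ∀ v, v ∉ U → Psi k χ deg s hds (ev v) = 1 := by
    intro v hv
    have h1 : χ (ev v) = 1 := by rw [hχ, hx1 v hv]
    have h2 : deg (toAdd (ev v)) = 0 := hN1 _ (Or.inl h1)
    rw [Psi_zero k χ deg s hds h2]
    have h3 : (⟨χ (ev v), mem_Lam k χ deg h2⟩ : Lam k χ deg) = 1 := by
      apply Subtype.ext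
      show ((χ (ev v) : Cˣ) : C) = 1
      rw [h1, Units.val_one]
    rw [h3, map_one]
  have hsat : Sat S S0 U Z ψ := by
    refine ⟨?_, ?_, ?_, ?_⟩
    · intro p hp
      have e := h.sat.two p hp
      by_cases hb : ∃ v, v ∉ U ∧ p.1 v ≠ 0
      · rw [hbad C φ hZ p.1 hb, zero_add] at e
        rw [hbad _ ψ hψ0 p.1 hb, hbad _ ψ hψ0 p.2 (hgood _ e), add_zero]
      · by_cases hb2 : ∃ v, v ∉ U ∧ p.2 v ≠ 0
        · rw [hbad C φ hZ p.2 hb2, add_zero] at e
          rw [hbad _ ψ hψ0 p.2 hb2, hbad _ ψ hψ0 p.1 (hgood _ e), add_zero]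
        · push Not at hb hb2
          rw [hmon _ hb, hmon _ hb2] at e
          rw [hψmon _ hb, hψmon _ hb2]
          obtain ⟨a, ha⟩ : ∃ a : V → ℤ, a = fun v => (p.1 v : ℤ) := ⟨_, rfl⟩
          obtain ⟨b, hb⟩ : ∃ b : V → ℤ, b = fun v => (p.2 v : ℤ) := ⟨_, rfl⟩
          rw [← ha, ← hb] at e ⊢
          have e0 : χ (ofAdd a) = -χ (ofAdd b) := by
            apply Units.ext
            rw [Units.val_neg]
            exact eq_neg_of_add_eq_zero_left e
          have e2 : χ (ofAdd (a - b)) = -1 := by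
            rw [ofAdd_sub, map_div, e0, neg_div, div_self']
          have e3 := hN1 _ (Or.inr e2)
          rw [map_sub, sub_eq_zero] at e3
          rw [Psi_apply, Psi_apply, toAdd_ofAdd, toAdd_ofAdd, e3, ← add_mul, ← map_add]
          have e4 : yL k χ deg s hds (ofAdd a) + yL k χ deg s hds (ofAdd b) = 0 := by
            apply Subtype.ext
            show ((yL k χ deg s hds (ofAdd a) : Lam k χ deg) : C) +
              ((yL k χ deg s hds (ofAdd b) : Lam k χ deg) : C) = 0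
            rw [yL_coe, yL_coe, toAdd_ofAdd, toAdd_ofAdd, e3, ofAdd_sub, ofAdd_sub, map_div,
              map_div, e0, neg_div, Units.val_neg]
            exact neg_add_cancel _
          rw [e4, map_zero, zero_mul]
    · intro p hp
      exact hbad _ ψ hψ0 p (hgood p (h.sat.one p hp))
    · intro v hv
      rw [hψ1 v hv]
      exact ((Psi k χ deg s hds).toHomUnits (ev v)).isUnit
    · intro v hv
      exact hψ0 v (hZU v hv)
  obtain ⟨g, hg⟩ := h.lift (DD m (Lam k χ deg)) ψ hsat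
  have hgχ : ∀ α, g (χ α : C) = Psi k χ deg s hds α := by
    have h1 : (g : C →* DD m (Lam k χ deg)).comp ((Units.coeHom C).comp χ) =
        Psi k χ deg s hds := by
      apply hom_ext
      intro v
      show g ((χ (ev v) : Cˣ) : C) = _
      rw [hχ]
      by_cases hv : v ∈ U
      · rw [hx v hv, hg, hψ1 v hv]
      · rw [hx1 v hv, Units.val_one, map_one, hΨ1 v hv]
    intro α
    exact DFunLike.congr_fun h1 α
  -- the inverse
  obtain ⟨q, hq⟩ : ∃ q : MvPolynomial (Fin m) (Lam k χ deg) →+* C,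
    q = MvPolynomial.eval₂Hom ((Lam k χ deg).val : Lam k χ deg →+* C)
      (fun i => (χ (ofAdd (s (Pi.single i 1))) : C)) := ⟨_, rfl⟩
  have hqX : ∀ i, q (X i) = (χ (ofAdd (s (Pi.single i 1))) : C) := fun i => by
    rw [hq, MvPolynomial.eval₂Hom_X']
  have hqC : ∀ c : Lam k χ deg, q (MvPolynomial.C c) = (c : C) := fun c => by
    rw [hq, MvPolynomial.eval₂Hom_C]
    rfl
  have hqu : IsUnit (q (∏ i, X i)) := by
    rw [map_prod]
    have h1 : ∏ i, q (X i) = ((∏ i, χ (ofAdd (s (Pi.single i 1))) : Cˣ) : C) := by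
      rw [Units.coe_prod]
      exact Finset.prod_congr rfl fun i _ => hqX i
    rw [h1]
    exact Units.isUnit _
  obtain ⟨r, hr⟩ : ∃ r : DD m (Lam k χ deg) →+* C,
      ∀ a, r (algebraMap (MvPolynomial (Fin m) (Lam k χ deg)) (DD m (Lam k χ deg)) a) = q a :=
    ⟨IsLocalization.Away.lift (∏ i, X i : MvPolynomial (Fin m) (Lam k χ deg)) hqu,
      fun a => IsLocalization.Away.lift_eq _ hqu a⟩
  have hrc : ∀ c : Lam k χ deg, r (cst (Lam k χ deg) m c) = (c : C) := fun c => by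
    rw [cst_apply, hr, hqC]
  have hrT : ∀ a : Multiplicative (Fin m → ℤ),
      r ((TM (Lam k χ deg) m a : (DD m (Lam k χ deg))ˣ) : DD m (Lam k χ deg)) =
        (χ (ofAdd (s (toAdd a))) : C) := by
    have h1 : (r : DD m (Lam k χ deg) →* C).comp
        ((Units.coeHom _).comp (TM (Lam k χ deg) m)) =
        (Units.coeHom C).comp (χ.comp (AddMonoidHom.toMultiplicative s)) := by
      apply hom_ext
      intro i
      show r ((TM (Lam k χ deg) m (ev i) : (DD m (Lam k χ deg))ˣ) : DD m (Lam k χ deg)) =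
        (χ (ofAdd (s (Pi.single i 1))) : C)
      rw [TM_ev, hr, hqX]
    intro a
    exact DFunLike.congr_fun h1 a
  have hrΨ : ∀ α, r (Psi k χ deg s hds α) = (χ α : C) := by
    intro α
    rw [Psi_apply, map_mul, hrc, hrT, yL_coe, toAdd_ofAdd, ← Units.val_mul, ← map_mul,
      ← ofAdd_add, sub_add_cancel, ofAdd_toAdd]
  have hk : ∀ c : k, r (algebraMap k (DD m (Lam k χ deg)) c) = algebraMap k C c := by
    intro c
    have h1 : algebraMap k (DD m (Lam k χ deg)) c =
        cst (Lam k χ deg) m (algebraMap k (Lam k χ deg) c) := by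
      rw [IsScalarTower.algebraMap_apply k (MvPolynomial (Fin m) (Lam k χ deg))
        (DD m (Lam k χ deg))]
      rfl
    rw [h1, hrc]
    rfl
  -- the two compositions
  have c1 : r.comp (g : C →+* DD m (Lam k χ deg)) = RingHom.id C := by
    let G : C →ₐ[k] C := AlgHom.mk (r.comp (g : C →+* DD m (Lam k χ deg))) (by
      intro c
      show r (g (algebraMap k C c)) = _
      rw [AlgHom.commutes, hk])
    have h1 : G = AlgHom.id k C := by
      refine h.ext C G (AlgHom.id k C) fun v => ?_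
      show r (g (φ v)) = φ v
      rw [hg]
      by_cases hv : v ∈ U
      · rw [hψ1 v hv, hrΨ, hχ, hx v hv]
      · rw [hψ0 v hv, map_zero, hZ v hv]
    ext c
    exact DFunLike.congr_fun h1 c
  have hgL : ∀ c : Lam k χ deg, g (c : C) = cst (Lam k χ deg) m c := by
    rintro ⟨c, hc⟩
    refine Algebra.adjoin_induction
      (p := fun c hc => g c = cst (Lam k χ deg) m ⟨c, hc⟩) ?_ ?_ ?_ ?_ hc
    · rintro _ ⟨α, hα, rfl⟩
      exact (hgχ (ofAdd α)).trans (Psi_zero k χ deg s hds (α := ofAdd α) hα)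
    · intro c
      rw [AlgHom.commutes, IsScalarTower.algebraMap_apply k
        (MvPolynomial (Fin m) (Lam k χ deg)) (DD m (Lam k χ deg))]
      rfl
    · intro a b ha hb e1 e2
      rw [map_add, e1, e2, ← map_add]
      rfl
    · intro a b ha hb e1 e2
      rw [map_mul, e1, e2, ← map_mul]
      rfl
  have c2 : (g : C →+* DD m (Lam k χ deg)).comp r = RingHom.id _ := by
    refine IsLocalization.ringHom_ext
      (Submonoid.powers (∏ i, X i : MvPolynomial (Fin m) (Lam k χ deg))) ?_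
    refine MvPolynomial.ringHom_ext ?_ ?_
    · intro c
      show g (r (algebraMap _ _ (MvPolynomial.C c))) = algebraMap _ _ (MvPolynomial.C c)
      rw [hr, hqC, hgL]
      rfl
    · intro i
      show g (r (algebraMap _ _ (X i))) = algebraMap _ _ (X i)
      rw [hr, hqX, hgχ, Psi_s]
  exact ⟨RingEquiv.ofRingHom (g : C →+* DD m (Lam k χ deg)) r c2 c1⟩

/-- If all variables are units or zero then the universal algebra of the system is the algebra of
Laurent polynomials over a finite `k`-algebra. -/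
theorem torus (k : Type u) [CommRing k] [IsNoetherianRing k] {V : Type} [Fintype V]
    (S : Set ((V → ℕ) × (V → ℕ))) (S0 : Set (V → ℕ)) (U Z : Set V) (hUZ : ∀ v, v ∈ U ∨ v ∈ Z)
    (C : Type u) [CommRing C] [Algebra k C] [Nontrivial C] (φ : V → C)
    (h : Univ k S S0 U Z C φ) :
    ∃ (m : ℕ) (Λ : Type u) (_ : CommRing Λ) (_ : Algebra k Λ), Module.Finite k Λ ∧
      Nonempty (C ≃+* Localization.Away (∏ i, X i : MvPolynomial (Fin m) Λ)) :=
  torus_of exists_deg k S S0 U Z hUZ C φ h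

end Pool.Agent.GZT
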