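import Pool.Agent.GZT.TorAsm
import Pool.Agent.GZT.TorB
import Pool.Agent.GZT.Step

/-!
# Systems with at most two terms in each equation have finitely generated `G_0`
-/

universe u v w

namespace Pool.Agent.GZT

open Pool.Agent.GZero MvPolynomial

theorem fg_Sys_of (k : Type u) [CommRing k] [IsNoetherianRing k]
    (hclosed : ∀ (B : Type u) [CommRing B] [IsNoetherianRing B] (s : B),
      AddGroup.FG (G0 (B ⧸ Ideal.span {s})) → AddGroup.FG (G0 (Localization.Away s)) →
      AddGroup.FG (G0 B))
    (hk : ∀ (Λ : Type u) [CommRing Λ] [Algebra k Λ], Module.Finite k Λ → AddGroup.FG (G0 Λ))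
    {V L : Type} [Finite V] (S : L → Finset (Finset V)) (h2 : ∀ l, (S l).card ≤ 2) :
    AddGroup.FG (G0 (Sys k S)) := by
  haveI := Fintype.ofFinite V
  haveI := isNoetherianRing_Sys k S
  refine strat k (eqTwo S) (eqOne S) hclosed ?_ ∅ ∅ (Sys k S) (Sys.x k S) (univ_Sys k S h2)
  intro U Z C _ _ φ hUZ h
  exact fg_of_torus k hk C fun _ => torus k (eqTwo S) (eqOne S) U Z hUZ C φ h

/-- Finite algebras over a field have finitely generated `G_0`. -/
theorem fg_of_finite_field (k : Type u) [Field k] (Λ : Type u) [CommRing Λ] [Algebra k Λ]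
    (h : Module.Finite k Λ) : AddGroup.FG (G0 Λ) := by
  haveI : IsArtinianRing Λ := IsArtinianRing.of_finite k Λ
  exact fg_of_isArtinianRing Λ

end Pool.Agent.GZT
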