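import Pool.Agent.GZT.Tot
import Pool.Agent.GZT.Tor
import Pool.Agent.GZT.Ffz

/-!
# The threshold theorem: cubics with linear variables which occur in at most two monomials
-/

universe u v w

namespace Pool.Agent.GZT

open MvPolynomial Pool.Agent.GZero

/-- The base rings: finite algebras have finitely generated `G_0`. -/
def Base (k : Type u) [CommRing k] : Prop :=
  ∀ (Λ : Type u) [CommRing Λ] [Algebra k Λ], Module.Finite k Λ → AddGroup.FG (G0 Λ)

theorem base_field (k : Type u) [Field k] : Base k := fun Λ _ _ h => fg_of_finite_field k Λ h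

theorem base_int (k : Type u) [CommRing k] [Module.Finite ℤ k] : Base k := fun Λ _ _ h => by
  have h1 : Module.Finite ℤ Λ := Module.Finite.trans k Λ
  exact fg_of_finite_int Λ

theorem fg_hyp_of_closed
    (hclosed : ∀ (B : Type u) [CommRing B] [IsNoetherianRing B] (s : B),
      AddGroup.FG (G0 (B ⧸ Ideal.span {s})) → AddGroup.FG (G0 (Localization.Away s)) →
      AddGroup.FG (G0 B))
    (k : Type u) [CommRing k] [IsNoetherianRing k] (hk : Base k) {n : ℕ}
    (S : Finset (Finset (Fin n))) (I : Finset (Fin n)) (hI : ∀ s ∈ S, (s ∩ I).card = 1)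
    (h2 : ∀ v ∈ I, (S.filter fun s => v ∈ s).card ≤ 2) : AddGroup.FG (G0 (Hyp k S)) :=
  fg_hyp_of k (hk k inferInstance) (fun _ _ _ T hT => fg_Sys_of k hclosed hk T hT) S I hI h2

end Pool.Agent.GZT
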