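import Pool.Agent.GZT.Lnk
import Pool.Agent.GZT.Away
import Pool.Agent.GZT.Art
import Pool.Agent.GZT.PolyFG

/-!
# Assembly of the threshold theorem
-/

universe u v w

namespace Pool.Agent.GZT

open Pool.Agent.GZero MvPolynomial

/-- The base of the induction: all variables are zero or invertible. -/
theorem fg_of_torus (k : Type u) [CommRing k] [IsNoetherianRing k]
    (hk : ∀ (Λ : Type u) [CommRing Λ] [Algebra k Λ], Module.Finite k Λ → AddGroup.FG (G0 Λ))
    (C : Type u) [CommRing C] (h : Nontrivial C → ∃ (m : ℕ) (Λ : Type u) (_ : CommRing Λ)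
      (_ : Algebra k Λ), Module.Finite k Λ ∧
      Nonempty (C ≃+* Localization.Away (∏ i, X i : MvPolynomial (Fin m) Λ))) :
    AddGroup.FG (G0 C) := by
  rcases subsingleton_or_nontrivial C with hC | hC
  · exact fg_of_subsingleton C
  · obtain ⟨m, Λ, _, _, hf, ⟨e⟩⟩ := h hC
    haveI : IsNoetherianRing Λ := IsNoetherianRing.of_finite k Λ
    exact fg_congr e.symm (fg_away _ _ (fg_mvPolynomial Λ (hk Λ hf) m))

theorem isNoetherianRing_Sys (k : Type u) [CommRing k] [IsNoetherianRing k] {V L : Type}
    [Finite V] (S : L → Finset (Finset V)) : IsNoetherianRing (Sys k S) :=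
  isNoetherianRing_of_surjective _ _ (Sys.mk k S).toRingHom (Sys.mk_surjective S)

end Pool.Agent.GZT
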