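import Pool.Agent.GZT.Hyp

/-!
# A cubic with a set of linear variables comes from a system
-/

universe u v w

namespace Pool.Agent.GZT

open MvPolynomial Pool.Agent.GZero

section

variable {n : ℕ} (S : Finset (Finset (Fin n))) (I : Finset (Fin n))

open Classical in
/-- The coefficient of the linear variable `l`: the monomials containing `l`, without `l`. -/
noncomputable def coefT (l : {v // v ∈ I}) : Finset (Finset {v // v ∉ I}) :=
  (S.filter fun s => l.1 ∈ s).image fun s => s.subtype (fun v => v ∉ I)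

open Classical in
theorem exists_tot (hI : ∀ s ∈ S, (s ∩ I).card = 1) :
    tot (coefT S I) (Equiv.sumCompl fun v => v ∈ I) = S := by
  ext t
  rw [mem_tot]
  have key : ∀ s ∈ S, ∀ l : {v // v ∈ I}, l.1 ∈ s →
      (({l} : Finset {v // v ∈ I}).disjSum (s.subtype (fun v => v ∉ I))).map
        (Equiv.sumCompl fun v => v ∈ I).toEmbedding = s := by
    intro s hs l hl
    obtain ⟨a, ha⟩ := Finset.card_eq_one.1 (hI s hs)
    have hal : ∀ v, v ∈ s → v ∈ I → v = l.1 := by
      intro v hv hvI
      have h1 : v ∈ s ∩ I := Finset.mem_inter.2 ⟨hv, hvI⟩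
      have h2 : l.1 ∈ s ∩ I := Finset.mem_inter.2 ⟨hl, l.2⟩
      rw [ha, Finset.mem_singleton] at h1 h2
      rw [h1, h2]
    ext v
    rw [Finset.mem_map]
    constructor
    · rintro ⟨o, ho, rfl⟩
      rcases o with l' | v'
      · rw [Finset.inl_mem_disjSum, Finset.mem_singleton] at ho
        subst ho
        exact hl
      · rw [Finset.inr_mem_disjSum, Finset.mem_subtype] at ho
        exact ho
    · intro hv
      by_cases hvI : v ∈ I
      · refine ⟨Sum.inl l, ?_, ?_⟩
        · rw [Finset.inl_mem_disjSum, Finset.mem_singleton]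
        · exact (hal v hv hvI).symm
      · refine ⟨Sum.inr ⟨v, hvI⟩, ?_, rfl⟩
        rw [Finset.inr_mem_disjSum, Finset.mem_subtype]
        exact hv
  constructor
  · rintro ⟨l, s, hs, rfl⟩
    obtain ⟨s₀, hs₀, rfl⟩ := Finset.mem_image.1 hs
    rw [Finset.mem_filter] at hs₀
    rw [key s₀ hs₀.1 l hs₀.2]
    exact hs₀.1
  · intro ht
    obtain ⟨a, ha⟩ := Finset.card_eq_one.1 (hI t ht)
    have h1 : a ∈ t ∩ I := by rw [ha]; exact Finset.mem_singleton_self a
    rw [Finset.mem_inter] at h1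
    exact ⟨⟨a, h1.2⟩, _, Finset.mem_image.2 ⟨t, Finset.mem_filter.2 ⟨ht, h1.1⟩, rfl⟩,
      key t ht ⟨a, h1.2⟩ h1.1⟩

theorem card_coefT {N : ℕ} (h2 : ∀ v ∈ I, (S.filter fun s => v ∈ s).card ≤ N)
    (l : {v // v ∈ I}) : (coefT S I l).card ≤ N := by
  unfold coefT
  refine Finset.card_image_le.trans ((le_of_eq ?_).trans (h2 l.1 l.2))
  congr

end

/-- Cubics in which some variables are linear and occur in at most two monomials. -/
theorem fg_hyp_of (k : Type u) [CommRing k] [IsNoetherianRing k] (hk : AddGroup.FG (G0 k))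
    (hS : ∀ (V L : Type) [Finite V] (T : L → Finset (Finset V)), (∀ l, (T l).card ≤ 2) →
      AddGroup.FG (G0 (Sys k T)))
    {n : ℕ} (S : Finset (Finset (Fin n))) (I : Finset (Fin n))
    (hI : ∀ s ∈ S, (s ∩ I).card = 1) (h2 : ∀ v ∈ I, (S.filter fun s => v ∈ s).card ≤ 2) :
    AddGroup.FG (G0 (Hyp k S)) := by
  have h3 := exists_tot S I hI
  have h4 := hyp_iso (k := k) (coefT S I) (Equiv.sumCompl fun v => v ∈ I)
  rw [h3] at h4
  obtain ⟨-, g, -⟩ := h4
  have := hS _ _ (coefT S I) (card_coefT S I h2)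
  have := hk
  have : AddGroup.FG (G0 (Sys k (coefT S I)) × G0 k) := inferInstance
  exact AddGroup.fg_of_surjective (f := g.symm.toAddMonoidHom) g.symm.surjective

end Pool.Agent.GZT
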